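import Mathlib

set_option autoImplicit false

namespace Pool.Agent.Lib.MP_ccd76d_co

variable {E : Type*} [NormedAddCommGroup E] [InnerProductSpace ℝ E]

/-- continuous linear map underlying a linear isometry equivalence -/
noncomputable def cl (A : E ≃ₗᵢ[ℝ] E) : E →L[ℝ] E := (A.toContinuousLinearEquiv : E →L[ℝ] E)

@[simp] lemma cl_apply (A : E ≃ₗᵢ[ℝ] E) (x : E) : cl A x = A x := rfl

@[simp] lemma cl_one : cl (1 : E ≃ₗᵢ[ℝ] E) = 1 := by
  ext x; simp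

@[simp] lemma cl_mul (A B : E ≃ₗᵢ[ℝ] E) : cl (A * B) = cl A * cl B := by
  ext x; simp

lemma cl_norm_le (A : E ≃ₗᵢ[ℝ] E) : ‖cl A‖ ≤ 1 := by
  refine ContinuousLinearMap.opNorm_le_bound _ zero_le_one (fun x => ?_)
  simp

lemma cl_inj {A B : E ≃ₗᵢ[ℝ] E} (h : cl A = cl B) : A = B := by
  ext x
  have := congrArg (fun f : E →L[ℝ] E => f x) h
  simpa using this

lemma cl_pow (A : E ≃ₗᵢ[ℝ] E) (n : ℕ) : cl (A ^ n) = cl A ^ n := by
  induction n with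
  | zero => simp
  | succ n ih => rw [pow_succ, cl_mul, ih, pow_succ]

/-- deviation of a linear isometry from the identity -/
noncomputable def nu (A : E ≃ₗᵢ[ℝ] E) : ℝ := ‖cl A - 1‖

lemma nu_nonneg (A : E ≃ₗᵢ[ℝ] E) : 0 ≤ nu A := norm_nonneg _

@[simp] lemma nu_one : nu (1 : E ≃ₗᵢ[ℝ] E) = 0 := by simp [nu]

lemma eq_one_of_nu {A : E ≃ₗᵢ[ℝ] E} (h : nu A = 0) : A = 1 := by
  apply cl_inj
  rw [cl_one]
  exact sub_eq_zero.mp (norm_eq_zero.mp h)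

lemma norm_cl_mul_le (A : E ≃ₗᵢ[ℝ] E) (T : E →L[ℝ] E) : ‖cl A * T‖ ≤ ‖T‖ := by
  calc ‖cl A * T‖ ≤ ‖cl A‖ * ‖T‖ := norm_mul_le _ _
    _ ≤ 1 * ‖T‖ := by gcongr; exact cl_norm_le A
    _ = ‖T‖ := one_mul _

lemma norm_mul_cl_le (A : E ≃ₗᵢ[ℝ] E) (T : E →L[ℝ] E) : ‖T * cl A‖ ≤ ‖T‖ := by
  calc ‖T * cl A‖ ≤ ‖T‖ * ‖cl A‖ := norm_mul_le _ _
    _ ≤ ‖T‖ * 1 := by gcongr; exact cl_norm_le A
    _ = ‖T‖ := mul_one _

lemma nu_mul_le (A B : E ≃ₗᵢ[ℝ] E) : nu (A * B) ≤ nu A + nu B := by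
  have : cl (A * B) - 1 = (cl A - 1) + cl A * (cl B - 1) := by
    rw [cl_mul]; noncomm_ring
  unfold nu
  rw [this]
  exact (norm_add_le _ _).trans (by gcongr; exact norm_cl_mul_le _ _)

lemma nu_inv_le (A : E ≃ₗᵢ[ℝ] E) : nu A⁻¹ ≤ nu A := by
  have h1 : cl A⁻¹ * cl A = 1 := by rw [← cl_mul]; simp
  have : cl A⁻¹ - 1 = - (cl A⁻¹ * (cl A - 1)) := by
    rw [mul_sub, h1]; simp
  unfold nu
  rw [this, norm_neg]
  exact norm_cl_mul_le _ _

lemma nu_inv (A : E ≃ₗᵢ[ℝ] E) : nu A⁻¹ = nu A := by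
  refine le_antisymm (nu_inv_le A) ?_
  have := nu_inv_le A⁻¹
  rwa [inv_inv] at this

lemma nu_conj_le (A B : E ≃ₗᵢ[ℝ] E) : nu (A * B * A⁻¹) ≤ nu B := by
  have h1 : cl A * cl A⁻¹ = 1 := by rw [← cl_mul]; simp
  have : cl (A * B * A⁻¹) - 1 = cl A * (cl B - 1) * cl A⁻¹ := by
    rw [cl_mul, cl_mul, mul_sub, sub_mul, mul_one, h1]
  unfold nu
  rw [this]
  exact (norm_mul_cl_le _ _).trans (norm_cl_mul_le _ _)

lemma nu_comm_le (A B : E ≃ₗᵢ[ℝ] E) : nu (A * B * A⁻¹ * B⁻¹) ≤ 2 * nu A * nu B := by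
  have h1 : cl A * cl A⁻¹ = 1 := by rw [← cl_mul]; simp
  have h2 : cl B * cl B⁻¹ = 1 := by rw [← cl_mul]; simp
  have key : cl (A * B * A⁻¹ * B⁻¹) - 1 =
      ((cl A - 1) * (cl B - 1) - (cl B - 1) * (cl A - 1)) * cl A⁻¹ * cl B⁻¹ := by
    have e : (cl A - 1) * (cl B - 1) - (cl B - 1) * (cl A - 1) = cl A * cl B - cl B * cl A := by
      noncomm_ring
    rw [e, cl_mul, cl_mul, cl_mul, sub_mul, sub_mul, mul_assoc (cl B) (cl A), h1, mul_one, h2]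
  unfold nu
  rw [key]
  refine (norm_mul_cl_le _ _).trans ((norm_mul_cl_le _ _).trans ?_)
  refine (norm_sub_le _ _).trans ?_
  have a1 := norm_mul_le (cl A - 1) (cl B - 1)
  have a2 := norm_mul_le (cl B - 1) (cl A - 1)
  nlinarith [norm_nonneg (cl A - 1), norm_nonneg (cl B - 1)]

/-- error estimate for powers -/
lemma nu_pow_le (A : E ≃ₗᵢ[ℝ] E) (n : ℕ) : nu (A ^ n) ≤ n * nu A := by
  induction n with
  | zero => simp
  | succ n ih =>
    rw [pow_succ]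
    refine (nu_mul_le _ _).trans ?_
    push_cast
    linarith

lemma nu_pow_aux (A : E ≃ₗᵢ[ℝ] E) (n : ℕ) :
    ‖cl (A ^ n) - 1 - (n : ℝ) • (cl A - 1)‖ ≤ (n : ℝ) ^ 2 * nu A ^ 2 / 2 := by
  induction n with
  | zero => simp
  | succ n ih =>
    have e : cl (A ^ (n + 1)) - 1 - ((n + 1 : ℕ) : ℝ) • (cl A - 1) =
        (cl (A ^ n) - 1 - (n : ℝ) • (cl A - 1)) + (cl (A ^ n) - 1) * (cl A - 1) := by
      rw [pow_succ, cl_mul]
      push_cast
      rw [add_smul, one_smul]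
      noncomm_ring
    rw [e]
    refine (norm_add_le _ _).trans ?_
    have h1 : ‖(cl (A ^ n) - 1) * (cl A - 1)‖ ≤ (n * nu A) * nu A := by
      refine (norm_mul_le _ _).trans ?_
      have := nu_pow_le A n
      unfold nu at this ⊢
      gcongr
    have h0 := nu_nonneg A
    push_cast
    nlinarith [sq_nonneg (nu A)]

lemma nu_pow_lower (A : E ≃ₗᵢ[ℝ] E) (n : ℕ) (hn : 1 ≤ n) (h : n * nu A ≤ 1) :
    nu A / 2 ≤ nu (A ^ n) := by
  have h1 := nu_pow_aux A n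
  have h2 : ‖(n : ℝ) • (cl A - 1)‖ = n * nu A := by
    rw [norm_smul]; simp [nu]
  have h3 : ‖(n : ℝ) • (cl A - 1)‖ ≤ nu (A ^ n) + ‖cl (A ^ n) - 1 - (n : ℝ) • (cl A - 1)‖ := by
    have e : (n : ℝ) • (cl A - 1) = (cl (A ^ n) - 1) - (cl (A ^ n) - 1 - (n : ℝ) • (cl A - 1)) := by
      abel
    rw [e]
    refine (norm_sub_le _ _).trans ?_
    rw [← e]
    rfl
  rw [h2] at h3
  have h0 := nu_nonneg A
  have hn' : (1 : ℝ) ≤ n := by exact_mod_cast hn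
  nlinarith [mul_nonneg h0 (sub_nonneg.mpr hn')]

/-- no small subgroups -/
lemma no_small (A : E ≃ₗᵢ[ℝ] E) (r : ℝ) (hr : r < 1) (h : ∀ n : ℕ, nu (A ^ n) ≤ r) : A = 1 := by
  by_contra hA
  have hpos : 0 < nu A := lt_of_le_of_ne (nu_nonneg A) (fun h0 => hA (eq_one_of_nu h0.symm))
  have hr0 : 0 ≤ r := (nu_nonneg _).trans (h 1)
  have step : ∀ B : E ≃ₗᵢ[ℝ] E, nu B ≤ r → (2 - r) * nu B ≤ nu (B ^ 2) := by
    intro B hB
    have e : cl (B ^ 2) - 1 = (2 : ℝ) • (cl B - 1) + (cl B - 1) * (cl B - 1) := by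
      rw [cl_pow, two_smul]; noncomm_ring
    have h2 : ‖(2 : ℝ) • (cl B - 1)‖ ≤ ‖cl (B ^ 2) - 1‖ + ‖(cl B - 1) * (cl B - 1)‖ := by
      have : (2 : ℝ) • (cl B - 1) = (cl (B ^ 2) - 1) - (cl B - 1) * (cl B - 1) := by
        rw [e]; abel
      rw [this]; exact norm_sub_le _ _
    rw [norm_smul] at h2
    have h3 := norm_mul_le (cl B - 1) (cl B - 1)
    have h0 := nu_nonneg B
    unfold nu at *
    norm_num at h2
    nlinarith
  have grow : ∀ k : ℕ, (2 - r) ^ k * nu A ≤ nu (A ^ (2 ^ k)) := by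
    intro k
    induction k with
    | zero => simp
    | succ k ih =>
      have := step (A ^ (2 ^ k)) (h _)
      rw [← pow_mul, ← pow_succ] at this
      refine le_trans ?_ this
      rw [pow_succ]
      have h2r : 0 ≤ 2 - r := by linarith
      nlinarith
  obtain ⟨k, hk⟩ := pow_unbounded_of_one_lt (r / nu A) (show 1 < 2 - r by linarith)
  have h1 := grow k
  have h2 := h (2 ^ k)
  rw [div_lt_iff₀ hpos] at hk
  linarith

/-- Frobenius-type lemma: if `X` commutes with `[X,Y]` and `Y` is near the identity,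
then `X` and `Y` commute. -/
lemma frob (X Y : E ≃ₗᵢ[ℝ] E) (hY : nu Y < 1 / 2)
    (hc : Commute X (X * Y * X⁻¹ * Y⁻¹)) : Commute X Y := by
  set Z := X * Y * X⁻¹ * Y⁻¹ with hZ
  have h1 : ∀ n : ℕ, X ^ n * Y * (X ^ n)⁻¹ = Z ^ n * Y := by
    intro n
    induction n with
    | zero => simp
    | succ n ih =>
      have hZY : X * Y * X⁻¹ = Z * Y := by rw [hZ]; group
      have hcn : Commute X (Z ^ n) := hc.pow_right n
      calc X ^ (n + 1) * Y * (X ^ (n + 1))⁻¹ = X * (X ^ n * Y * (X ^ n)⁻¹) * X⁻¹ := by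
            rw [pow_succ' X n]; group
        _ = X * (Z ^ n * Y) * X⁻¹ := by rw [ih]
        _ = Z ^ n * (X * Y * X⁻¹) := by
            rw [← mul_assoc X, hcn.eq]; group
        _ = Z ^ n * (Z * Y) := by rw [hZY]
        _ = Z ^ (n + 1) * Y := by rw [pow_succ]; group
  have h2 : ∀ n : ℕ, nu (Z ^ n) ≤ 2 * nu Y := by
    intro n
    have e : Z ^ n = (X ^ n * Y * (X ^ n)⁻¹) * Y⁻¹ := by rw [h1 n]; group
    rw [e]
    refine (nu_mul_le _ _).trans ?_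
    rw [nu_inv]
    linarith [nu_conj_le (X ^ n) Y]
  have h3 : Z = 1 := no_small Z (2 * nu Y) (by linarith) h2
  have : X * Y = Y * X := by
    have e : X * Y = Z * (Y * X) := by rw [hZ]; group
    rw [e, h3, one_mul]
  exact this

end Pool.Agent.Lib.MP_ccd76d_co
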