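import Mathlib
import Pool.Agent.Lib.MP_ccd76d_co.Nu

set_option autoImplicit false

namespace Pool.Agent.Lib.MP_ccd76d_co

variable {E : Type*} [NormedAddCommGroup E] [InnerProductSpace ℝ E]

/-- linear part as a group homomorphism -/
noncomputable def lin : (E ≃ᵃⁱ[ℝ] E) →* (E ≃ₗᵢ[ℝ] E) where
  toFun g := g.linearIsometryEquiv
  map_one' := by ext x; rfl
  map_mul' g h := by ext x; rfl

lemma iso_apply (g : E ≃ᵃⁱ[ℝ] E) (x : E) : g x = lin g x + g 0 := by
  have := g.map_vadd (0 : E) x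
  simpa [lin] using this

lemma iso_sub (g : E ≃ᵃⁱ[ℝ] E) (x y : E) : g x - g y = lin g (x - y) := by
  rw [iso_apply g x, iso_apply g y, map_sub]; abel

/-- products `h 0 ^ i 0 * h 1 ^ i 1 * ...` -/
def wd {G : Type*} [Group G] : (m : ℕ) → (ℕ → G) → (Fin m → ℕ) → G
  | 0, _, _ => 1
  | (m + 1), h, i => h 0 ^ (i 0) * wd m (fun k => h (k + 1)) (fun j => i j.succ)

lemma nu_wd_le (M : ℕ) (ρ : ℝ) (hρ0 : 0 ≤ ρ) (hρ : ρ ≤ 1 / 2) :
    ∀ (m : ℕ) (h : ℕ → (E ≃ₗᵢ[ℝ] E)), (∀ k, nu (h (k + 1)) ≤ ρ * nu (h k)) →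
      ∀ i : Fin m → ℕ, (∀ j, i j ≤ M) → nu (wd m h i) ≤ 2 * M * nu (h 0) := by
  intro m
  induction m with
  | zero =>
    intro h _ i _
    simp only [wd, nu_one]
    have := nu_nonneg (h 0)
    positivity
  | succ m ih =>
    intro h hh i hi
    rw [wd]
    refine (nu_mul_le _ _).trans ?_
    have h1 := ih (fun k => h (k + 1)) (fun k => hh (k + 1)) (fun j => i j.succ) (fun j => hi _)
    have h2 := nu_pow_le (h 0) (i 0)
    have h3 : (i 0 : ℝ) ≤ M := by exact_mod_cast hi 0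
    have h4 := hh 0
    have h5 := nu_nonneg (h 0)
    simp only [zero_add] at h1
    have h6 : nu (h (0 + 1)) ≤ 1 / 2 * nu (h 0) := h4.trans (by gcongr)
    simp only [zero_add] at h6
    have h7 : (2 * M * nu (h 1) : ℝ) ≤ M * nu (h 0) := by
      have hM : (0 : ℝ) ≤ M := Nat.cast_nonneg _
      nlinarith
    have h8 : (i 0 : ℝ) * nu (h 0) ≤ M * nu (h 0) := by gcongr
    linarith

lemma wd_inj (M : ℕ) (ρ : ℝ) (hρ0 : 0 ≤ ρ) (hρ : ρ ≤ 1 / 2) (hMρ : M * ρ < 1 / 8) :
    ∀ (m : ℕ) (h : ℕ → (E ≃ₗᵢ[ℝ] E)), (∀ k, nu (h (k + 1)) ≤ ρ * nu (h k)) →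
      (∀ k, 0 < nu (h k)) → (∀ k, M * nu (h k) ≤ 1) →
      ∀ i i' : Fin m → ℕ, (∀ j, i j ≤ M) → (∀ j, i' j ≤ M) → wd m h i = wd m h i' → i = i' := by
  intro m
  induction m with
  | zero => intro h _ _ _ i i' _ _ _; exact Subsingleton.elim _ _
  | succ m ih =>
    -- the key separation statement
    have sep : ∀ (h : ℕ → (E ≃ₗᵢ[ℝ] E)), (∀ k, nu (h (k + 1)) ≤ ρ * nu (h k)) →
      (∀ k, 0 < nu (h k)) → (∀ k, M * nu (h k) ≤ 1) →
      ∀ i i' : Fin (m + 1) → ℕ, (∀ j, i j ≤ M) → (∀ j, i' j ≤ M) →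
      wd (m + 1) h i = wd (m + 1) h i' → ¬ (i' 0 < i 0) := by
      intro h hh hpos hM i i' hi hi' heq hlt
      rw [wd, wd] at heq
      set w := wd m (fun k => h (k + 1)) (fun j => i j.succ) with hw
      set w' := wd m (fun k => h (k + 1)) (fun j => i' j.succ) with hw'
      have e1 : h 0 ^ (i 0 - i' 0) = w' * w⁻¹ := by
        have : h 0 ^ (i 0) = h 0 ^ (i' 0) * h 0 ^ (i 0 - i' 0) := by
          rw [← pow_add]; congr 1; omega
        rw [this, mul_assoc] at heq
        have := mul_left_cancel heq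
        rw [← this]; group
      have b1 : nu w ≤ 2 * M * nu (h 1) :=
        nu_wd_le M ρ hρ0 hρ m (fun k => h (k + 1)) (fun k => hh (k + 1)) _ (fun j => hi _)
      have b2 : nu w' ≤ 2 * M * nu (h 1) :=
        nu_wd_le M ρ hρ0 hρ m (fun k => h (k + 1)) (fun k => hh (k + 1)) _ (fun j => hi' _)
      have b3 : nu (h 0) / 2 ≤ nu (h 0 ^ (i 0 - i' 0)) := by
        apply nu_pow_lower
        · omega
        · have : ((i 0 - i' 0 : ℕ) : ℝ) ≤ M := by
            have h1 := hi 0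
            exact_mod_cast (by omega : i 0 - i' 0 ≤ M)
          have h2 := hM 0
          have h3 := hpos 0
          nlinarith
      rw [e1] at b3
      have b4 := nu_mul_le w' w⁻¹
      rw [nu_inv] at b4
      have b5 := hh 0
      simp only [zero_add] at b5
      have b6 := hpos 0
      have b7 : (M : ℝ) * nu (h 1) ≤ M * ρ * nu (h 0) := by
        have : (0 : ℝ) ≤ M := Nat.cast_nonneg _
        nlinarith
      nlinarith
    intro h hh hpos hM i i' hi hi' heq
    have h0 : i 0 = i' 0 := by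
      have a := sep h hh hpos hM i i' hi hi' heq
      have b := sep h hh hpos hM i' i hi' hi heq.symm
      omega
    have heq2 := heq
    rw [wd, wd, h0] at heq2
    have heq3 := mul_left_cancel heq2
    have := ih (fun k => h (k + 1)) (fun k => hh (k + 1)) (fun k => hpos (k + 1))
      (fun k => hM (k + 1)) _ _ (fun j => hi j.succ) (fun j => hi' j.succ) heq3
    funext j
    refine Fin.cases h0 (fun j => ?_) j
    exact congrFun this j

lemma map_wd {G H : Type*} [Group G] [Group H] (f : G →* H) :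
    ∀ (m : ℕ) (h : ℕ → G) (i : Fin m → ℕ), f (wd m h i) = wd m (fun k => f (h k)) i := by
  intro m
  induction m with
  | zero => intro h i; simp [wd]
  | succ m ih => intro h i; simp only [wd, map_mul, map_pow, ih]

/-- iterated commutators `h, [g,h], [g,[g,h]], ...` -/
def ic {G : Type*} [Group G] (g h : G) : ℕ → G
  | 0 => h
  | (k + 1) => g * ic g h k * g⁻¹ * (ic g h k)⁻¹

lemma map_ic {G H : Type*} [Group G] [Group H] (f : G →* H) (g h : G) (k : ℕ) :
    f (ic g h k) = ic (f g) (f h) k := by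
  induction k with
  | zero => rfl
  | succ k ih => simp only [ic, map_mul, map_inv, ih]

lemma nu_ic_le (X Y : E ≃ₗᵢ[ℝ] E) (k : ℕ) : nu (ic X Y (k + 1)) ≤ 2 * nu X * nu (ic X Y k) :=
  nu_comm_le _ _

lemma ic_not_commute (X Y : E ≃ₗᵢ[ℝ] E) (hX : nu X ≤ 1 / 4) (hY : nu Y < 1 / 2)
    (hXY : ¬ Commute X Y) (k : ℕ) : nu (ic X Y k) < 1 / 2 ∧ ¬ Commute X (ic X Y k) := by
  induction k with
  | zero => exact ⟨hY, hXY⟩
  | succ k ih =>
    refine ⟨?_, fun hc => ih.2 (frob X _ ih.1 hc)⟩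
    have := nu_ic_le X Y k
    have h1 := nu_nonneg X
    have h2 := nu_nonneg (ic X Y k)
    nlinarith [ih.1]

/-- A set of isometries closed under products, inverses, with a length function `P` of polynomial growth:
near-identity elements have commuting linear parts. -/
theorem lin_commute_of_growth (P : (E ≃ᵃⁱ[ℝ] E) → ℝ → Prop)
    (Pone : P 1 0)
    (Pmul : ∀ a b s t, P a s → P b t → P (a * b) (s + t))
    (Pinv : ∀ a s, P a s → P a⁻¹ s)
    (c : ℝ) (D : ℕ)
    (growth : ∀ Λ : ℝ, 1 ≤ Λ → ∀ T : Finset (E ≃ᵃⁱ[ℝ] E), (∀ γ ∈ T, ∃ s ≤ Λ, P γ s) →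
      (T.card : ℝ) ≤ c * Λ ^ D)
    (g h : E ≃ᵃⁱ[ℝ] E) (s : ℝ) (hs : 1 ≤ s) (hg : P g s) (hh : P h s)
    (hgθ : nu (lin g) ≤ 1 / (64 * 2 ^ (D + 1))) (hhθ : nu (lin h) ≤ 1 / (64 * 2 ^ (D + 1))) :
    Commute (lin g) (lin h) := by
  by_contra hnc
  set θ : ℝ := 1 / (64 * 2 ^ (D + 1)) with hθ
  have hpow1 : (1 : ℝ) ≤ 2 ^ (D + 1) := one_le_pow₀ (by norm_num)
  have hθpos : 0 < θ := by positivity
  have hθle : θ ≤ 1 / 64 := by
    rw [hθ]
    apply one_div_le_one_div_of_le (by norm_num)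
    linarith
  have hnot := ic_not_commute (lin g) (lin h) (by linarith) (by linarith) hnc
  -- lengths of the iterated commutators
  have hlen' : ∀ k : ℕ, ∃ t, t ≤ 3 * s * 2 ^ k - 2 * s ∧ P (ic g h k) t := by
    intro k
    induction k with
    | zero => exact ⟨s, by simp; linarith, hh⟩
    | succ k ih =>
      obtain ⟨t, ht, hP⟩ := ih
      refine ⟨(s + t + s) + t, ?_, ?_⟩
      · rw [pow_succ]; linarith
      · exact Pmul _ _ _ _ (Pmul _ _ _ _ (Pmul _ _ _ _ hg hP) (Pinv _ _ hg)) (Pinv _ _ hP)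
  have hlen2 : ∀ k : ℕ, ∃ t, t ≤ 3 * s * 2 ^ k ∧ P (ic g h k) t := by
    intro k
    obtain ⟨t, ht, hP⟩ := hlen' k
    exact ⟨t, by linarith, hP⟩
  -- powers and words
  have Ppow : ∀ (a : E ≃ᵃⁱ[ℝ] E) (t : ℝ), P a t → ∀ n : ℕ, P (a ^ n) (n * t) := by
    intro a t ha n
    induction n with
    | zero => simpa using Pone
    | succ n ih =>
      rw [pow_succ]
      have := Pmul _ _ _ _ ih ha
      push_cast
      rwa [add_mul, one_mul]
  set M : ℕ := 2 ^ (D + 1) with hM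
  have Pwd : ∀ (m : ℕ) (f : ℕ → (E ≃ᵃⁱ[ℝ] E)) (b : ℝ), 0 ≤ b →
      (∀ k, ∃ t, t ≤ b * 2 ^ k ∧ P (f k) t) → ∀ i : Fin m → ℕ, (∀ j, i j ≤ M) →
      ∃ t, t ≤ M * b * (2 ^ m - 1) ∧ P (wd m f i) t := by
    intro m
    induction m with
    | zero => intro f b hb _ i _; exact ⟨0, by simp, Pone⟩
    | succ m ih =>
      intro f b hb hf i hi
      obtain ⟨t, ht, hP⟩ := ih (fun k => f (k + 1)) (2 * b) (by positivity) (fun k => by
        obtain ⟨t, ht, hP⟩ := hf (k + 1)
        exact ⟨t, by rw [pow_succ] at ht; linarith, hP⟩) (fun j => i j.succ) (fun j => hi _)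
      obtain ⟨t0, ht0, hP0⟩ := hf 0
      refine ⟨(i 0 : ℕ) * t0 + t, ?_, Pmul _ _ _ _ (Ppow _ _ hP0 _) hP⟩
      have h1 : ((i 0 : ℕ) : ℝ) ≤ M := by exact_mod_cast hi 0
      have h2 : ((i 0 : ℕ) : ℝ) * t0 ≤ M * b := by
        have h3 : ((i 0 : ℕ) : ℝ) * t0 ≤ ((i 0 : ℕ) : ℝ) * b := by
          apply mul_le_mul_of_nonneg_left _ (Nat.cast_nonneg _)
          simpa using ht0
        exact h3.trans (by gcongr)
      have e : (M : ℝ) * b * (2 ^ (m + 1) - 1) = M * b + M * (2 * b) * (2 ^ m - 1) := by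
        rw [pow_succ]; ring
      rw [e]
      linarith
  -- the words are distinct
  have hsep : ∀ (m : ℕ), Function.Injective
      (fun i : Fin m → Fin (M + 1) => wd m (ic g h) (fun j => (i j : ℕ))) := by
    intro m i i' heq
    have h1 : lin (wd m (ic g h) (fun j => (i j : ℕ))) =
        lin (wd m (ic g h) (fun j => (i' j : ℕ))) := congrArg lin heq
    rw [map_wd, map_wd] at h1
    have hf : (fun k => lin (ic g h k)) = ic (lin g) (lin h) := by
      funext k; exact map_ic lin g h k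
    rw [hf] at h1
    have hMr : (M : ℝ) = 2 ^ (D + 1) := by rw [hM]; push_cast; rfl
    have hMθ : (M : ℝ) * θ = 1 / 64 := by
      rw [hMr, hθ]; field_simp
    have hmono : ∀ k, nu (ic (lin g) (lin h) (k + 1)) ≤ 2 * θ * nu (ic (lin g) (lin h) k) := by
      intro k
      refine (nu_ic_le _ _ _).trans ?_
      have := nu_nonneg (ic (lin g) (lin h) k)
      gcongr
    have hle : ∀ k, nu (ic (lin g) (lin h) k) ≤ θ := by
      intro k
      induction k with
      | zero => exact hhθ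
      | succ k ih =>
        refine (hmono k).trans ?_
        have := nu_nonneg (ic (lin g) (lin h) k)
        nlinarith
    have h2 := wd_inj M (2 * θ) (by positivity) (by linarith) (by linarith) m
      (ic (lin g) (lin h)) hmono
      (fun k => lt_of_le_of_ne (nu_nonneg _) (fun h0 => by
        have h3 := eq_one_of_nu h0.symm
        have h4 := (hnot k).2
        rw [h3] at h4
        exact h4 (Commute.one_right _)))
      (fun k => by
        have := hle k
        have hM0 : (0 : ℝ) ≤ M := Nat.cast_nonneg _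
        nlinarith) _ _
      (fun j => Nat.lt_succ_iff.mp (i j).2) (fun j => Nat.lt_succ_iff.mp (i' j).2) h1
    funext j
    exact Fin.ext (congrFun h2 j)
  -- counting
  have count : ∀ m : ℕ, ((2 : ℝ) ^ m) ≤ c * (3 * s * M) ^ D := by
    intro m
    classical
    have hg1 := growth (M * (3 * s) * 2 ^ m) (by
      have : (1 : ℝ) ≤ M := by rw [hM]; push_cast; exact hpow1
      have h2 : (1 : ℝ) ≤ 2 ^ m := one_le_pow₀ (by norm_num)
      have h3 : (1 : ℝ) ≤ 3 * s := by linarith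
      have h4 : (1 : ℝ) ≤ M * (3 * s) := one_le_mul_of_one_le_of_one_le this h3
      exact one_le_mul_of_one_le_of_one_le h4 h2)
      ((Finset.univ : Finset (Fin m → Fin (M + 1))).image
        (fun i => wd m (ic g h) (fun j => (i j : ℕ)))) (by
        intro γ hγ
        obtain ⟨i, _, rfl⟩ := Finset.mem_image.mp hγ
        obtain ⟨t, ht, hP⟩ := Pwd m (ic g h) (3 * s) (by linarith) hlen2 (fun j => (i j : ℕ))
          (fun j => Nat.lt_succ_iff.mp (i j).2)
        refine ⟨t, ht.trans ?_, hP⟩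
        have : (0 : ℝ) ≤ M * (3 * s) := by positivity
        nlinarith)
    rw [Finset.card_image_of_injective _ (hsep m)] at hg1
    simp only [Finset.card_univ, Fintype.card_pi, Fintype.card_fin, Finset.prod_const] at hg1
    have h5 : ((2 : ℝ) ^ m) ^ (D + 1) ≤ (((M + 1) ^ m : ℕ) : ℝ) := by
      rw [← pow_mul, mul_comm, pow_mul]
      push_cast
      gcongr
      rw [hM]; push_cast; linarith
    have h6 : ((M : ℝ) * (3 * s) * 2 ^ m) ^ D = (3 * s * M) ^ D * (2 ^ m) ^ D := by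
      rw [← mul_pow]; ring
    rw [h6] at hg1
    have h7 : ((2 : ℝ) ^ m) ^ D * 2 ^ m ≤ (c * (3 * s * M) ^ D) * (2 ^ m) ^ D := by
      rw [← pow_succ]
      calc _ ≤ _ := h5
        _ ≤ _ := hg1
        _ = _ := by ring
    have h8 : (0 : ℝ) < (2 ^ m) ^ D := by positivity
    nlinarith
  obtain ⟨m, hm⟩ := pow_unbounded_of_one_lt (c * (3 * s * M) ^ D) (show (1 : ℝ) < 2 by norm_num)
  exact absurd (count m) (not_le.mpr hm)

end Pool.Agent.Lib.MP_ccd76d_co
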