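import Mathlib
import Pool.Agent.Lib.MP_ccd76d_co.Words

set_option autoImplicit false

namespace Pool.Agent.Lib.MP_ccd76d_co

open Metric Set

variable {E : Type*} [NormedAddCommGroup E] [InnerProductSpace ℝ E]

/-- image of a body under an isometry -/
def act (g : E ≃ᵃⁱ[ℝ] E) (B : Set E) : Set E := g '' B

@[simp] lemma act_one (B : Set E) : act 1 B = B := by
  simp [act]

lemma act_mul (g h : E ≃ᵃⁱ[ℝ] E) (B : Set E) : act (g * h) B = act g (act h B) := by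
  simp only [act, ← image_comp]
  rfl

@[simp] lemma act_inv_act (g : E ≃ᵃⁱ[ℝ] E) (B : Set E) : act g⁻¹ (act g B) = B := by
  rw [← act_mul]; simp

@[simp] lemma act_act_inv (g : E ≃ᵃⁱ[ℝ] E) (B : Set E) : act g (act g⁻¹ B) = B := by
  rw [← act_mul]; simp

lemma act_inj (g : E ≃ᵃⁱ[ℝ] E) {A B : Set E} (h : act g A = act g B) : A = B := by
  rw [← act_inv_act g A, h, act_inv_act]

lemma hd_act (g : E ≃ᵃⁱ[ℝ] E) (A B : Set E) :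
    hausdorffDist (act g A) (act g B) = hausdorffDist A B :=
  hausdorffDist_image g.isometry

lemma inv_apply_self' (g : E ≃ᵃⁱ[ℝ] E) (x : E) : g⁻¹ (g x) = x := by
  have : (g⁻¹ * g) x = x := by simp
  exact this

lemma apply_inv_self' (g : E ≃ᵃⁱ[ℝ] E) (x : E) : g (g⁻¹ x) = x := by
  have : (g * g⁻¹) x = x := by simp
  exact this

lemma norm_inv_zero (g : E ≃ᵃⁱ[ℝ] E) : ‖g⁻¹ 0‖ = ‖g 0‖ := by
  have h : dist (g⁻¹ 0) 0 = dist (g (g⁻¹ 0)) (g 0) := (g.isometry.dist_eq _ _).symm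
  rw [apply_inv_self', dist_zero_right, dist_zero_left] at h
  exact h

lemma norm_apply_ge (g : E ≃ᵃⁱ[ℝ] E) (x : E) : ‖x‖ - ‖g 0‖ ≤ ‖g x‖ := by
  have h : dist (g x) (g 0) = dist x 0 := g.isometry.dist_eq _ _
  rw [dist_zero_right, dist_eq_norm] at h
  have := norm_sub_le (g x) (g 0)
  linarith

lemma norm_apply_le (g : E ≃ᵃⁱ[ℝ] E) (x : E) : ‖g x‖ ≤ ‖x‖ + ‖g 0‖ := by
  have h : dist (g x) (g 0) = dist x 0 := g.isometry.dist_eq _ _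
  rw [dist_zero_right, dist_eq_norm] at h
  have : g x = (g x - g 0) + g 0 := by abel
  rw [this]
  refine (norm_add_le _ _).trans ?_
  rw [h]

/-- The facts about a packing that the group-theoretic part of the argument uses. -/
structure Good (C : Set (Set E)) where
  c0 : ℝ
  c0_pos : 0 < c0
  sep : ∀ A ∈ C, ∀ B ∈ C, hausdorffDist A B < c0 → A = B
  cpt : ∀ B ∈ C, IsCompact B
  ne : ∀ B ∈ C, B.Nonempty
  fixpt : ∀ B ∈ C, ∀ κ : E ≃ᵃⁱ[ℝ] E, act κ B = B → ∃ b ∈ B, κ b = b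
  R : ℝ
  R_pos : 0 < R
  dense : ∀ y : E, ∃ B ∈ C, B ⊆ closedBall y R
  cst : ℝ
  dm : ℕ
  count : ∀ Λ : ℝ, 1 ≤ Λ → ∀ T : Finset (Set E), (∀ B ∈ T, B ∈ C ∧ ∃ x ∈ B, ‖x‖ ≤ Λ) →
    (T.card : ℝ) ≤ cst * Λ ^ dm

/-- the isometry `γ` almost preserves `C`: outside the ball of radius `Λ`, both `γ` and `γ⁻¹`
map members of `C` to members of `C`; moreover it moves the origin by at most `Λ`. -/
def AP (C : Set (Set E)) (γ : E ≃ᵃⁱ[ℝ] E) (Λ : ℝ) : Prop :=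
  ‖γ 0‖ ≤ Λ ∧ (∀ B ∈ C, (∀ x ∈ B, Λ ≤ ‖x‖) → act γ B ∈ C) ∧
    (∀ B ∈ C, (∀ x ∈ B, Λ ≤ ‖x‖) → act γ⁻¹ B ∈ C)

variable {C : Set (Set E)}

lemma AP.one : AP C 1 0 := by
  refine ⟨by simp, fun B hB _ => by simpa using hB, fun B hB _ => by simpa using hB⟩

lemma AP.inv {γ : E ≃ᵃⁱ[ℝ] E} {Λ : ℝ} (h : AP C γ Λ) : AP C γ⁻¹ Λ := by
  refine ⟨by rw [norm_inv_zero]; exact h.1, h.2.2, ?_⟩
  rw [inv_inv]; exact h.2.1

lemma AP.nonneg {γ : E ≃ᵃⁱ[ℝ] E} {Λ : ℝ} (h : AP C γ Λ) : 0 ≤ Λ := (norm_nonneg _).trans h.1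

lemma AP.mul_aux {γ δ : E ≃ᵃⁱ[ℝ] E} {Λ M : ℝ} (h : AP C γ Λ) (k : AP C δ M) :
    ∀ B ∈ C, (∀ x ∈ B, Λ + M ≤ ‖x‖) → act (γ * δ) B ∈ C := by
  intro B hB hx
  have h1 : act δ B ∈ C := k.2.1 B hB (fun x hxB => by
    have := hx x hxB
    have := h.nonneg
    linarith)
  rw [act_mul]
  refine h.2.1 _ h1 ?_
  rintro _ ⟨x, hxB, rfl⟩
  have h2 := norm_apply_ge δ x
  have h3 := hx x hxB
  have h4 := k.1
  linarith

lemma AP.mul {γ δ : E ≃ᵃⁱ[ℝ] E} {Λ M : ℝ} (h : AP C γ Λ) (k : AP C δ M) :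
    AP C (γ * δ) (Λ + M) := by
  refine ⟨?_, AP.mul_aux h k, ?_⟩
  · have h1 : (γ * δ) 0 = γ (δ 0) := rfl
    rw [h1]
    have := norm_apply_le γ (δ 0)
    have := h.1
    have := k.1
    linarith
  · have := AP.mul_aux k.inv h.inv
    rw [mul_inv_rev]
    intro B hB hx
    exact this B hB (fun x hxB => by linarith [hx x hxB])

lemma AP.mono {γ : E ≃ᵃⁱ[ℝ] E} {Λ M : ℝ} (h : AP C γ Λ) (hle : Λ ≤ M) : AP C γ M :=
  ⟨h.1.trans hle, fun B hB hx => h.2.1 B hB (fun x hxB => hle.trans (hx x hxB)),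
    fun B hB hx => h.2.2 B hB (fun x hxB => hle.trans (hx x hxB))⟩

/-- almost-symmetries -/
def AS (C : Set (Set E)) (γ : E ≃ᵃⁱ[ℝ] E) : Prop := ∃ Λ, AP C γ Λ

lemma AS.mul {γ δ : E ≃ᵃⁱ[ℝ] E} (h : AS C γ) (k : AS C δ) : AS C (γ * δ) := by
  obtain ⟨a, ha⟩ := h
  obtain ⟨b, hb⟩ := k
  exact ⟨_, ha.mul hb⟩

lemma AS.inv {γ : E ≃ᵃⁱ[ℝ] E} (h : AS C γ) : AS C γ⁻¹ := by
  obtain ⟨a, ha⟩ := h
  exact ⟨_, ha.inv⟩

lemma AS.one : AS C 1 := ⟨0, AP.one⟩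

lemma AS.pow {γ : E ≃ᵃⁱ[ℝ] E} (h : AS C γ) (n : ℕ) : AS C (γ ^ n) := by
  induction n with
  | zero => simpa using AS.one
  | succ n ih => rw [pow_succ]; exact ih.mul h

lemma AS.zpow {γ : E ≃ᵃⁱ[ℝ] E} (h : AS C γ) (n : ℤ) : AS C (γ ^ n) := by
  cases n with
  | ofNat n => simpa using h.pow n
  | negSucc n => rw [zpow_negSucc]; exact (h.pow _).inv

end Pool.Agent.Lib.MP_ccd76d_co
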