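import Mathlib

set_option autoImplicit false

namespace Pool.Agent.Lib.MP_ccd76d_co

/-- A convex body of Euclidean `d`-space: a compact convex set with nonempty interior. -/
def IsConvexBody {d : ℕ} (K : Set (EuclideanSpace ℝ (Fin d))) : Prop :=
  IsCompact K ∧ Convex ℝ K ∧ (interior K).Nonempty

/-- `B` is a congruent copy of `K`: the image of `K` under an isometry of the space onto itself. -/
def Congruent {d : ℕ} (K B : Set (EuclideanSpace ℝ (Fin d))) : Prop :=
  ∃ g : EuclideanSpace ℝ (Fin d) ≃ᵢ EuclideanSpace ℝ (Fin d), g '' K = B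

/-- `C` is a packing of congruent copies of `K`: distinct members have disjoint interiors. -/
def IsPackingOf {d : ℕ} (K : Set (EuclideanSpace ℝ (Fin d)))
    (C : Set (Set (EuclideanSpace ℝ (Fin d)))) : Prop :=
  (∀ B ∈ C, Congruent K B) ∧ ∀ A ∈ C, ∀ B ∈ C, A ≠ B → Disjoint (interior A) (interior B)

/-- `φ` describes a replacement of finitely many members `B` of `C` by congruent copies `φ B`
(all other members are kept: `φ B = B`) such that the resulting family is again a packing. -/
def IsFiniteReplacement {d : ℕ} (K : Set (EuclideanSpace ℝ (Fin d)))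
    (C : Set (Set (EuclideanSpace ℝ (Fin d))))
    (φ : Set (EuclideanSpace ℝ (Fin d)) → Set (EuclideanSpace ℝ (Fin d))) : Prop :=
  {B | B ∈ C ∧ φ B ≠ B}.Finite ∧ (∀ B ∈ C, Congruent K (φ B)) ∧
    ∀ A ∈ C, ∀ B ∈ C, A ≠ B → Disjoint (interior (φ A)) (interior (φ B))

/-- `C` is solid: every packing obtained from `C` by replacing finitely many members by congruent
copies is the image of `C` under an isometry of the space. -/
def IsSolid {d : ℕ} (K : Set (EuclideanSpace ℝ (Fin d)))
    (C : Set (Set (EuclideanSpace ℝ (Fin d)))) : Prop :=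
  ∀ φ : Set (EuclideanSpace ℝ (Fin d)) → Set (EuclideanSpace ℝ (Fin d)),
    IsFiniteReplacement K C φ →
      ∃ g : EuclideanSpace ℝ (Fin d) ≃ᵢ EuclideanSpace ℝ (Fin d),
        φ '' C = (fun B => g '' B) '' C

/-- `C` is uniformly finitely stable: for some `ε > 0` the only replacement of finitely many
members by congruent copies at Hausdorff distance less than `ε` giving a packing is the trivial
one. -/
def IsUniformlyFinitelyStable {d : ℕ} (K : Set (EuclideanSpace ℝ (Fin d)))
    (C : Set (Set (EuclideanSpace ℝ (Fin d)))) : Prop :=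
  ∃ ε : ℝ, 0 < ε ∧ ∀ φ : Set (EuclideanSpace ℝ (Fin d)) → Set (EuclideanSpace ℝ (Fin d)),
    IsFiniteReplacement K C φ → (∀ B ∈ C, Metric.hausdorffDist B (φ B) < ε) → ∀ B ∈ C, φ B = B

end Pool.Agent.Lib.MP_ccd76d_co
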