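import Mathlib
import Pool.Agent.Lib.MP_ccd76d_co.Core

set_option autoImplicit false

namespace Pool.Agent.Lib.MP_ccd76d_co

open Metric Set
open scoped RealInnerProductSpace

variable {E : Type*} [NormedAddCommGroup E] [InnerProductSpace ℝ E]

/-- A linear isometry fixing vectors close to a large multiple of every basis vector is the identity. -/
lemma lin_eq_one_of_fix {n : ℕ} (b : OrthonormalBasis (Fin n) ℝ E) [FiniteDimensional ℝ E]
    (A : E ≃ₗᵢ[ℝ] E) (L δ : ℝ) (hδ : 0 ≤ δ) (hL : δ * (n + 1) < L) (v : Fin n → E)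
    (hv : ∀ i, ‖v i - L • b i‖ ≤ δ) (hA : ∀ i, A (v i) = v i) : A = 1 := by
  let F : Submodule ℝ E := LinearMap.ker ((cl A - 1 : E →L[ℝ] E) : E →ₗ[ℝ] E)
  have memF : ∀ x, x ∈ F ↔ A x = x := by
    intro x
    simp only [F, LinearMap.mem_ker]
    have : ((cl A - 1 : E →L[ℝ] E) : E →ₗ[ℝ] E) x = A x - x := by simp
    rw [this, sub_eq_zero]
  by_contra hne
  have hF : F ≠ ⊤ := by
    intro h
    apply hne
    ext x
    have : x ∈ F := by rw [h]; trivial
    simpa using (memF x).mp this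
  have hFo : Fᗮ ≠ ⊥ := fun h => hF (Submodule.orthogonal_eq_bot_iff.mp h)
  obtain ⟨u, huF, hu0⟩ := (Submodule.ne_bot_iff _).mp hFo
  have hLpos : 0 < L := lt_of_le_of_lt (by positivity) hL
  have hunorm : 0 < ‖u‖ := norm_pos_iff.mpr hu0
  have hsmall : ∀ i, L * |⟪b i, u⟫| ≤ δ * ‖u‖ := by
    intro i
    have h0 : ⟪v i, u⟫ = 0 := (Submodule.mem_orthogonal F u).mp huF _ ((memF _).mpr (hA i))
    have h1 : L * ⟪b i, u⟫ = - ⟪v i - L • b i, u⟫ := by
      rw [inner_sub_left, h0, inner_smul_left]; simp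
    have h2 : L * |⟪b i, u⟫| = |L * ⟪b i, u⟫| := by rw [abs_mul, abs_of_pos hLpos]
    rw [h2, h1, abs_neg]
    refine (abs_real_inner_le_norm _ _).trans ?_
    gcongr
    exact hv i
  have hsum := b.sum_sq_inner_right u
  have hbound : ∀ i, ⟪b i, u⟫ ^ 2 ≤ (δ * ‖u‖ / L) ^ 2 := by
    intro i
    have h1 : |⟪b i, u⟫| ≤ δ * ‖u‖ / L := by
      rw [le_div_iff₀ hLpos]; linarith [hsmall i]
    exact sq_le_sq' (by linarith [neg_abs_le (⟪b i, u⟫)]) ((le_abs_self _).trans h1)
  have h3 : ‖u‖ ^ 2 ≤ n * (δ * ‖u‖ / L) ^ 2 := by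
    rw [← hsum]
    refine (Finset.sum_le_sum (fun i _ => hbound i)).trans ?_
    simp
  have h4 : (n : ℝ) * (δ * ‖u‖ / L) ^ 2 = (n * δ ^ 2 / L ^ 2) * ‖u‖ ^ 2 := by
    field_simp
  rw [h4] at h3
  have h5 : (n : ℝ) * δ ^ 2 / L ^ 2 < 1 := by
    rw [div_lt_one (by positivity)]
    have hn : (0 : ℝ) ≤ n := Nat.cast_nonneg n
    have h6 : (δ * (n + 1)) ^ 2 < L ^ 2 := by
      apply sq_lt_sq' _ hL
      have : 0 ≤ δ * (n + 1) := by positivity
      linarith
    nlinarith [sq_nonneg δ, mul_nonneg hn (sq_nonneg δ), mul_nonneg (mul_nonneg hn hn) (sq_nonneg δ)]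
  have h6 : 0 < ‖u‖ ^ 2 := by positivity
  nlinarith

/-- polynomial growth of the almost-symmetries -/
theorem growth [FiniteDimensional ℝ E] [Nontrivial E] {C : Set (Set E)} (D : Good C) :
    ∃ (c : ℝ) (n : ℕ), ∀ Λ : ℝ, 1 ≤ Λ → ∀ T : Finset (E ≃ᵃⁱ[ℝ] E),
      (∀ γ ∈ T, ∃ s ≤ Λ, AP C γ s) → (T.card : ℝ) ≤ c * Λ ^ n := by
  classical
  set n := Module.finrank ℝ E with hn
  let b : OrthonormalBasis (Fin n) ℝ E := stdOrthonormalBasis ℝ E
  obtain ⟨u, hu⟩ : ∃ u : E, ‖u‖ = 1 := exists_norm_eq E zero_le_one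
  choose B hBC hBsub using D.dense
  set R := D.R with hR
  have hRpos : 0 < R := D.R_pos
  set L : ℝ := 2 * R * (n + 1) + 1 with hL
  have hn0 : (0 : ℝ) ≤ n := Nat.cast_nonneg n
  have hLpos : 0 < L := by positivity
  -- the number of bodies meeting a ball
  have hfin : ∀ M : ℝ, 1 ≤ M → ∃ S : Finset (Set E), (∀ A, A ∈ S ↔ (A ∈ C ∧ ∃ x ∈ A, ‖x‖ ≤ M)) := by
    intro M hM
    have : Set.Finite {A | A ∈ C ∧ ∃ x ∈ A, ‖x‖ ≤ M} := by
      by_contra hinf
      obtain ⟨t, ht, htc⟩ := Set.Infinite.exists_subset_card_eq hinf (⌊D.cst * M ^ D.dm⌋₊ + 1)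
      have := D.count M hM t (fun A hA => ht hA)
      rw [htc] at this
      push_cast at this
      have h2 := Nat.lt_floor_add_one (D.cst * M ^ D.dm)
      linarith
    exact ⟨this.toFinset, fun A => by simp⟩
  refine ⟨(D.cst * (4 + 2 * R + 2 * L) ^ D.dm) ^ (n + 1), D.dm * (n + 1), ?_⟩
  intro Λ hΛ T hT
  set M : ℝ := 2 * Λ + 2 * R + 2 * L with hM
  obtain ⟨S, hS⟩ := hfin M (by linarith)
  let y : Option (Fin n) → E := fun o => match o with
    | none => (Λ + R + L) • u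
    | some i => (Λ + R + L) • u + L • b i
  have hynorm : ∀ o, ‖y o - (Λ + R + L) • u‖ ≤ L := by
    intro o
    cases o with
    | none => simp [y]; exact hLpos.le
    | some i =>
      simp only [y, add_sub_cancel_left, norm_smul]
      rw [b.norm_eq_one, mul_one, Real.norm_of_nonneg hLpos.le]
  have hsu : ‖(Λ + R + L) • u‖ = Λ + R + L := by
    rw [norm_smul, hu, mul_one, Real.norm_of_nonneg (by linarith)]
  have hx1 : ∀ o, ∀ x ∈ B (y o), Λ ≤ ‖x‖ ∧ ‖x‖ ≤ Λ + 2 * R + 2 * L := by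
    intro o x hx
    have h1 := hBsub (y o) hx
    rw [mem_closedBall, dist_eq_norm] at h1
    have h2 := hynorm o
    have h3 : ‖x - (Λ + R + L) • u‖ ≤ R + L := by
      have : x - (Λ + R + L) • u = (x - y o) + (y o - (Λ + R + L) • u) := by abel
      rw [this]
      exact (norm_add_le _ _).trans (add_le_add h1 h2)
    constructor
    · have := norm_sub_norm_le ((Λ + R + L) • u) x
      rw [norm_sub_rev] at this
      linarith
    · have := norm_sub_norm_le x ((Λ + R + L) • u)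
      linarith
  -- the map to tuples of bodies
  let f : (E ≃ᵃⁱ[ℝ] E) → (Option (Fin n) → Set E) := fun γ o => act γ (B (y o))
  have hmaps : ∀ γ ∈ T, f γ ∈ Fintype.piFinset (fun _ : Option (Fin n) => S) := by
    intro γ hγ
    obtain ⟨s, hs, hP⟩ := hT γ hγ
    rw [Fintype.mem_piFinset]
    intro o
    rw [hS]
    refine ⟨hP.2.1 _ (hBC _) (fun x hx => hs.trans (hx1 o x hx).1), ?_⟩
    obtain ⟨x, hx⟩ := D.ne _ (hBC (y o))
    refine ⟨γ x, mem_image_of_mem _ hx, ?_⟩
    have h1 := norm_apply_le γ x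
    have h2 := (hx1 o x hx).2
    have h3 := hP.1
    linarith
  have hinj : ∀ γ ∈ T, ∀ γ' ∈ T, f γ = f γ' → γ = γ' := by
    intro γ _ γ' _ hff
    set κ := γ⁻¹ * γ' with hκ
    have hfix : ∀ o, act κ (B (y o)) = B (y o) := by
      intro o
      have := congrFun hff o
      simp only [f] at this
      rw [hκ, act_mul, ← this, act_inv_act]
    choose p hpB hp using fun o => D.fixpt _ (hBC (y o)) κ (hfix o)
    have hl : lin κ = 1 := by
      refine lin_eq_one_of_fix b (lin κ) L (2 * R) (by positivity) (by rw [hL]; linarith)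
        (fun i => p (some i) - p none) (fun i => ?_) (fun i => ?_)
      · have h1 := hBsub _ (hpB (some i))
        have h2 := hBsub _ (hpB none)
        rw [mem_closedBall, dist_eq_norm] at h1 h2
        have e : p (some i) - p none - L • b i =
            (p (some i) - y (some i)) - (p none - y none) := by
          simp only [y]; abel
        rw [e]
        refine (norm_sub_le _ _).trans ?_
        linarith
      · have := iso_sub κ (p (some i)) (p none)
        rw [hp, hp] at this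
        exact this.symm
    have h0 : κ 0 = 0 := by
      have h1 := iso_apply κ (p none)
      rw [hp, hl] at h1
      simpa using h1
    have hκ1 : κ = 1 := by
      ext x
      rw [iso_apply κ x, hl, h0]
      simp
    have : γ * κ = γ' := by rw [hκ]; group
    rw [hκ1, mul_one] at this
    exact this
  have hcard : T.card ≤ (Fintype.piFinset (fun _ : Option (Fin n) => S)).card :=
    Finset.card_le_card_of_injOn f hmaps (fun γ hγ γ' hγ' h => hinj γ hγ γ' hγ' h)
  rw [Fintype.card_piFinset] at hcard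
  simp only [Finset.prod_const, Finset.card_univ, Fintype.card_option, Fintype.card_fin] at hcard
  have hScard : (S.card : ℝ) ≤ D.cst * M ^ D.dm :=
    D.count M (by linarith) S (fun A hA => (hS A).mp hA)
  have hcst : 0 ≤ D.cst := by
    have h1 := D.count 1 le_rfl ∅ (by simp)
    simpa using h1
  have hMle : M ≤ (4 + 2 * R + 2 * L) * Λ := by
    rw [hM]; nlinarith
  calc (T.card : ℝ) ≤ ((S.card ^ (n + 1) : ℕ) : ℝ) := by exact_mod_cast hcard
    _ = (S.card : ℝ) ^ (n + 1) := by push_cast; rfl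
    _ ≤ (D.cst * M ^ D.dm) ^ (n + 1) := by gcongr
    _ ≤ (D.cst * ((4 + 2 * R + 2 * L) * Λ) ^ D.dm) ^ (n + 1) := by
        gcongr
    _ = (D.cst * (4 + 2 * R + 2 * L) ^ D.dm) ^ (n + 1) * Λ ^ (D.dm * (n + 1)) := by
        rw [mul_pow (4 + 2 * R + 2 * L) Λ, ← mul_assoc, mul_pow _ (Λ ^ D.dm), ← pow_mul]

theorem lin_commute [FiniteDimensional ℝ E] [Nontrivial E] {C : Set (Set E)} (D : Good C) :
    ∃ θ : ℝ, 0 < θ ∧ ∀ g h : E ≃ᵃⁱ[ℝ] E, AS C g → AS C h → nu (lin g) ≤ θ → nu (lin h) ≤ θ →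
      Commute (lin g) (lin h) := by
  obtain ⟨c, n, hgr⟩ := growth D
  refine ⟨1 / (64 * 2 ^ (n + 1)), by positivity, ?_⟩
  rintro g h ⟨a, ha⟩ ⟨b, hb⟩ h1 h2
  exact lin_commute_of_growth (AP C) AP.one (fun _ _ _ _ h k => h.mul k) (fun _ _ h => h.inv)
    c n hgr g h (max 1 (max a b)) (le_max_left _ _)
    (ha.mono ((le_max_left _ _).trans (le_max_right _ _)))
    (hb.mono ((le_max_right _ _).trans (le_max_right _ _))) h1 h2

end Pool.Agent.Lib.MP_ccd76d_co
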