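import Mathlib
import Pool.Agent.Lib.MP_ccd76d_co.Growth

set_option autoImplicit false

namespace Pool.Agent.Lib.MP_ccd76d_co

open Metric Set
open scoped RealInnerProductSpace

variable {E : Type*} [NormedAddCommGroup E] [InnerProductSpace ℝ E]

lemma inner_fix (A : E ≃ₗᵢ[ℝ] E) {v : E} (hv : A v = v) (x : E) : ⟪v, A x - x⟫ = 0 := by
  have h : ⟪A v, A x⟫ = ⟪v, x⟫ := A.inner_map_map v x
  rw [hv] at h
  rw [inner_sub_right, h, sub_self]

lemma exists_solve [FiniteDimensional ℝ E] (A : E ≃ₗᵢ[ℝ] E) (a : E) :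
    ∃ a0 q : E, A a0 = a0 ∧ a = a0 + (q - A q) := by
  let f : E →ₗ[ℝ] E := ((cl A - 1 : E →L[ℝ] E) : E →ₗ[ℝ] E)
  have hf : ∀ x, f x = A x - x := fun x => by simp [f]
  let F : Submodule ℝ E := LinearMap.ker f
  have memF : ∀ x, x ∈ F ↔ A x = x := by
    intro x
    simp only [F, LinearMap.mem_ker, hf, sub_eq_zero]
  obtain ⟨a0, ha0, a1, ha1, hsum⟩ := F.exists_add_mem_mem_orthogonal a
  have hmaps : ∀ x ∈ Fᗮ, f x ∈ Fᗮ := by
    intro x _
    rw [Submodule.mem_orthogonal]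
    intro v hv
    rw [hf]
    exact inner_fix A ((memF v).mp hv) x
  let f' : Fᗮ →ₗ[ℝ] Fᗮ := f.restrict hmaps
  have hinj : Function.Injective f' := by
    rw [← LinearMap.ker_eq_bot, LinearMap.ker_eq_bot']
    rintro ⟨x, hx⟩ h
    have h1 : f x = 0 := by
      have := congrArg Subtype.val h
      simpa [f'] using this
    have h2 : x ∈ F := h1
    have h3 : ⟪x, x⟫ = 0 := (Submodule.mem_orthogonal F x).mp hx x h2
    have h4 : x = 0 := inner_self_eq_zero.mp h3
    exact Subtype.ext h4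
  have hsurj : Function.Surjective f' := LinearMap.injective_iff_surjective.mp hinj
  obtain ⟨⟨q, hq⟩, hfq⟩ := hsurj ⟨a1, ha1⟩
  have hfq' : f q = a1 := by
    have := congrArg Subtype.val hfq
    simpa [f'] using this
  refine ⟨a0, -q, (memF a0).mp ha0, ?_⟩
  rw [hf] at hfq'
  rw [hsum, ← hfq', map_neg]
  abel

lemma iso_disp {κ : E ≃ᵃⁱ[ℝ] E} {a0 q : E} (h : κ 0 = a0 + (q - lin κ q)) (x : E) :
    κ x - x = (lin κ (x - q) - (x - q)) + a0 := by
  rw [iso_apply κ x, h, map_sub]; abel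

lemma nu_apply_le (A : E ≃ₗᵢ[ℝ] E) (x : E) : ‖A x - x‖ ≤ nu A * ‖x‖ := by
  have := (cl A - 1 : E →L[ℝ] E).le_opNorm x
  simpa [nu] using this

lemma iso_eq_one {κ : E ≃ᵃⁱ[ℝ] E} (h1 : lin κ = 1) (h0 : κ 0 = 0) : κ = 1 := by
  ext x
  rw [iso_apply κ x, h1, h0]; simp

lemma exists_scaled (v : E) (hv : v ≠ 0) (r : ℝ) (hr : 0 ≤ r) : ∃ t : ℝ, ‖t • v‖ = r := by
  refine ⟨r / ‖v‖, ?_⟩
  rw [norm_smul, Real.norm_of_nonneg (by positivity)]
  field_simp

lemma hd_le {κ : E ≃ᵃⁱ[ℝ] E} {B : Set E} {r : ℝ} (hr : 0 ≤ r) (h : ∀ x ∈ B, ‖κ x - x‖ ≤ r) :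
    hausdorffDist (act κ B) B ≤ r := by
  refine hausdorffDist_le_of_mem_dist hr ?_ ?_
  · rintro _ ⟨x, hx, rfl⟩
    exact ⟨x, hx, by rw [dist_eq_norm]; exact h x hx⟩
  · intro x hx
    exact ⟨κ x, mem_image_of_mem _ hx, by rw [dist_comm, dist_eq_norm]; exact h x hx⟩

variable {C : Set (Set E)}

/-- near-identity almost symmetries whose linear part fixes a nonzero vector are trivial -/
theorem near_one [FiniteDimensional ℝ E] (D : Good C) : ∃ η : ℝ, 0 < η ∧ ∀ κ : E ≃ᵃⁱ[ℝ] E, AS C κ →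
    nu (lin κ) ≤ η → (∃ y, ‖κ y - y‖ ≤ η) → (∃ w, w ≠ 0 ∧ lin κ w = w) → κ = 1 := by
  have hR := D.R_pos
  have hc := D.c0_pos
  refine ⟨D.c0 / (4 * (D.R + 1)), by positivity, ?_⟩
  set η := D.c0 / (4 * (D.R + 1)) with hη
  have hηpos : 0 < η := by positivity
  have hη2 : η * (2 * D.R + 2) < D.c0 := by
    have : η * (2 * D.R + 2) = D.c0 / 2 := by rw [hη]; field_simp; ring
    rw [this]; linarith
  rintro κ ⟨Λ, hP⟩ hν ⟨y, hy⟩ ⟨w, hw0, hw⟩
  obtain ⟨a0, q, ha0, ha⟩ := exists_solve (lin κ) (κ 0)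
  have ha0n : ‖a0‖ ≤ η := by
    have h1 : ⟪a0, κ y - y⟫ = ‖a0‖ ^ 2 := by
      rw [iso_disp ha, inner_add_right, inner_fix _ ha0, zero_add, real_inner_self_eq_norm_sq]
    have h2 : ‖a0‖ ^ 2 ≤ ‖a0‖ * ‖κ y - y‖ := by
      rw [← h1]; exact real_inner_le_norm _ _
    by_cases h0 : ‖a0‖ = 0
    · rw [h0]; exact hηpos.le
    · have h3 : 0 < ‖a0‖ := lt_of_le_of_ne (norm_nonneg _) (Ne.symm h0)
      nlinarith
  by_cases hA : lin κ = 1
  · -- translation
    obtain ⟨t, ht⟩ := exists_scaled w hw0 (max 0 (Λ + D.R)) (le_max_left _ _)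
    obtain ⟨B, hB, hBs⟩ := D.dense (t • w)
    have hfar : ∀ x ∈ B, Λ ≤ ‖x‖ := by
      intro x hx
      have h1 := hBs hx
      rw [mem_closedBall, dist_eq_norm] at h1
      have h2 := norm_sub_norm_le (t • w) x
      rw [norm_sub_rev] at h2
      have h3 := le_max_right 0 (Λ + D.R)
      linarith
    have hκB := hP.2.1 B hB hfar
    have hdisp : ∀ x ∈ B, ‖κ x - x‖ ≤ η := by
      intro x _
      rw [iso_disp ha, hA]
      simpa using ha0n
    have heq : act κ B = B := by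
      apply D.sep _ hκB _ hB
      refine lt_of_le_of_lt (hd_le hηpos.le hdisp) ?_
      nlinarith
    obtain ⟨b, _, hb⟩ := D.fixpt B hB κ heq
    have h3 := iso_apply κ b
    rw [hb, hA] at h3
    have h4 : κ 0 = 0 := by simpa using h3
    exact iso_eq_one hA h4
  · exfalso
    -- a vector orthogonal to all fixed vectors
    obtain ⟨x0, hx0⟩ : ∃ x, lin κ x ≠ x := by
      by_contra h
      push Not at h
      exact hA (by ext x; simpa using h x)
    have hz0 : lin κ x0 - x0 ≠ 0 := sub_ne_zero.mpr hx0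
    obtain ⟨s, hs⟩ := exists_scaled _ hz0 (D.R + 1) (by linarith)
    set z := s • (lin κ x0 - x0) with hz
    have hzorth : ∀ f, lin κ f = f → ⟪f, z⟫ = 0 := by
      intro f hf
      rw [hz, inner_smul_right, inner_fix _ hf, mul_zero]
    obtain ⟨t, ht⟩ := exists_scaled w hw0 (max 0 (Λ + D.R + ‖q + z‖)) (le_max_left _ _)
    set yt := q + t • w + z with hyt
    obtain ⟨B, hB, hBs⟩ := D.dense yt
    have hfar : ∀ x ∈ B, Λ ≤ ‖x‖ := by
      intro x hx
      have h1 := hBs hx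
      rw [mem_closedBall, dist_eq_norm] at h1
      have h3 := le_max_right 0 (Λ + D.R + ‖q + z‖)
      have h4 : t • w = x - (x - yt) - (q + z) := by rw [hyt]; abel
      have h5 : ‖t • w‖ ≤ ‖x‖ + ‖x - yt‖ + ‖q + z‖ := by
        conv_lhs => rw [h4]
        exact (norm_sub_le _ _).trans (add_le_add (norm_sub_le _ _) le_rfl)
      linarith
    have hκB := hP.2.1 B hB hfar
    have htw : lin κ (t • w) = t • w := by rw [map_smul, hw]
    have hdisp : ∀ x ∈ B, ‖κ x - x‖ ≤ η * (2 * D.R + 2) := by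
      intro x hx
      have h1 := hBs hx
      rw [mem_closedBall, dist_eq_norm] at h1
      have e : κ x - x = (lin κ (x - q - t • w) - (x - q - t • w)) + a0 := by
        rw [iso_disp ha, map_sub (lin κ) (x - q), htw]; abel
      rw [e]
      refine (norm_add_le _ _).trans ?_
      have h2 := nu_apply_le (lin κ) (x - q - t • w)
      have h3 : ‖x - q - t • w‖ ≤ 2 * D.R + 1 := by
        have : x - q - t • w = (x - yt) + z := by rw [hyt]; abel
        rw [this]
        refine (norm_add_le _ _).trans ?_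
        linarith
      have h4 : nu (lin κ) * ‖x - q - t • w‖ ≤ η * (2 * D.R + 1) := by
        have := norm_nonneg (x - q - t • w)
        exact mul_le_mul hν h3 this hηpos.le
      linarith
    have heq : act κ B = B := by
      apply D.sep _ hκB _ hB
      exact lt_of_le_of_lt (hd_le (by positivity) hdisp) hη2
    obtain ⟨b, hbB, hb⟩ := D.fixpt B hB κ heq
    have h1 := iso_disp ha b
    rw [hb, sub_self] at h1
    have h2 : a0 = 0 := by
      have h3 : ⟪a0, (lin κ (b - q) - (b - q)) + a0⟫ = 0 := by rw [← h1]; simp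
      rw [inner_add_right, inner_fix _ ha0, zero_add] at h3
      exact inner_self_eq_zero.mp h3
    have h3 : lin κ (b - q - t • w) = b - q - t • w := by
      rw [h2, add_zero] at h1
      rw [map_sub, htw]
      have := sub_eq_zero.mp h1.symm
      rw [this]
    have h4 := hzorth _ h3
    have h5 := hBs hbB
    rw [mem_closedBall, dist_eq_norm] at h5
    have h6 : ⟪z, z⟫ = - ⟪b - yt, z⟫ := by
      have : z = (b - q - t • w) - (b - yt) := by rw [hyt]; abel
      calc ⟪z, z⟫ = ⟪(b - q - t • w) - (b - yt), z⟫ := by rw [← this]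
        _ = - ⟪b - yt, z⟫ := by rw [inner_sub_left, h4]; ring
    rw [real_inner_self_eq_norm_sq] at h6
    have h7 : - ⟪b - yt, z⟫ ≤ ‖b - yt‖ * ‖z‖ := by
      have := abs_real_inner_le_norm (b - yt) z
      linarith [neg_abs_le ⟪b - yt, z⟫]
    have h8 : ‖z‖ = D.R + 1 := hs
    rw [h8] at h6 h7
    nlinarith

/-- `γ` maps every member of `C` `ε`-close to a member of `C` -/
def Sy (C : Set (Set E)) (γ : E ≃ᵃⁱ[ℝ] E) (ε : ℝ) : Prop :=
  ∀ B ∈ C, ∃ B' ∈ C, hausdorffDist (act γ B) B' < ε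

lemma act_cpt {B : Set E} (h : IsCompact B) (γ : E ≃ᵃⁱ[ℝ] E) : IsCompact (act γ B) :=
  h.image γ.continuous

omit [InnerProductSpace ℝ E] in
lemma hed {A B : Set E} (hA : IsCompact A) (hB : IsCompact B) (nA : A.Nonempty) (nB : B.Nonempty) :
    hausdorffEDist A B ≠ ⊤ :=
  hausdorffEDist_ne_top_of_nonempty_of_bounded nA nB hA.isBounded hB.isBounded

lemma Sy.mul (D : Good C) {γ δ : E ≃ᵃⁱ[ℝ] E} {ε ε' : ℝ} (h : Sy C γ ε) (k : Sy C δ ε') :
    Sy C (γ * δ) (ε + ε') := by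
  intro B hB
  obtain ⟨B1, hB1, h1⟩ := k B hB
  obtain ⟨B2, hB2, h2⟩ := h B1 hB1
  refine ⟨B2, hB2, ?_⟩
  have h3 : hausdorffDist (act (γ * δ) B) (act γ B1) < ε' := by
    rw [act_mul, hd_act]; exact h1
  have h4 := hausdorffDist_triangle (s := act (γ * δ) B) (t := act γ B1) (u := B2)
    (hed (act_cpt (D.cpt B hB) _) (act_cpt (D.cpt B1 hB1) _) ((D.ne B hB).image _)
      ((D.ne B1 hB1).image _))
  linarith

/-- almost-symmetries displacing everything by tiny amounts near identity have no fixed point -/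
theorem no_fix (D : Good C) : ∃ η : ℝ, 0 < η ∧ ∀ γ : E ≃ᵃⁱ[ℝ] E,
    nu (lin γ) ≤ η → Sy C γ η → (∃ p, γ p = p) → lin γ = 1 := by
  have hR := D.R_pos
  have hc := D.c0_pos
  refine ⟨D.c0 / (8 * (D.R + 1)), by positivity, ?_⟩
  set η := D.c0 / (8 * (D.R + 1)) with hη
  have hηpos : 0 < η := by positivity
  have hη2 : η * (D.R + 1) = D.c0 / 8 := by rw [hη]; field_simp
  rintro γ hν hS ⟨p, hp⟩
  by_contra hA
  obtain ⟨u0, hu0⟩ : ∃ x, lin γ x ≠ x := by
    by_contra h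
    push Not at h
    exact hA (by ext x; simpa using h x)
  obtain ⟨s, hs⟩ := exists_scaled _ (sub_ne_zero.mpr hu0) (D.c0 / 2) (by linarith)
  set u := s • u0 with hu
  set W := lin γ u - u with hW
  have hWn : ‖W‖ = D.c0 / 2 := by
    rw [hW, hu, map_smul, ← smul_sub]; exact hs
  obtain ⟨B, hB, hBs⟩ := D.dense (p + u)
  have hd : ∀ y ∈ B, ‖γ y - y - W‖ ≤ η * D.R := by
    intro y hy
    have h1 := hBs hy
    rw [mem_closedBall, dist_eq_norm] at h1
    have h2 := iso_sub γ y p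
    rw [hp] at h2
    have e : γ y - y - W = lin γ (y - (p + u)) - (y - (p + u)) := by
      have h3 : γ y = lin γ (y - p) + p := by rw [← h2]; abel
      rw [h3, hW]
      have h4 : lin γ (y - (p + u)) = lin γ (y - p) - lin γ u := by
        rw [← map_sub]; congr 1; abel
      rw [h4]; abel
    rw [e]
    refine (nu_apply_le _ _).trans ?_
    exact mul_le_mul hν h1 (norm_nonneg _) hηpos.le
  have h1 : hausdorffDist (act γ B) B ≤ D.c0 / 2 + η * D.R := by
    apply hd_le (by positivity)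
    intro x hx
    have h2 := hd x hx
    have h3 : γ x - x = (γ x - x - W) + W := by abel
    rw [h3]
    refine (norm_add_le _ _).trans ?_
    linarith
  obtain ⟨B', hB', h2⟩ := hS B hB
  have h3 : B = B' := by
    apply D.sep _ hB _ hB'
    have h4 := hausdorffDist_triangle (s := B) (t := act γ B) (u := B')
      (hed (D.cpt B hB) (act_cpt (D.cpt B hB) _) (D.ne B hB) ((D.ne B hB).image _))
    rw [hausdorffDist_comm (s := B) (t := act γ B)] at h4
    nlinarith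
  subst h3
  -- lower bound
  obtain ⟨y, hyB, hymax⟩ := (D.cpt B hB).exists_isMaxOn (D.ne B hB)
    (f := fun x => ⟪W, x⟫) (by fun_prop)
  obtain ⟨y', hy'B, hy'⟩ := exists_dist_lt_of_hausdorffDist_lt (mem_image_of_mem γ hyB) h2
    (hed (act_cpt (D.cpt B hB) _) (D.cpt B hB) ((D.ne B hB).image _) (D.ne B hB))
  have h4 : ⟪W, y'⟫ ≤ ⟪W, y⟫ := hymax hy'B
  rw [dist_eq_norm] at hy'
  have h5 : ⟪W, γ y - y'⟫ = ‖W‖ ^ 2 + (⟪W, y⟫ - ⟪W, y'⟫) + ⟪W, γ y - y - W⟫ := by
    have e : γ y - y' = W + (y - y') + (γ y - y - W) := by abel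
    rw [e, inner_add_right, inner_add_right, real_inner_self_eq_norm_sq, inner_sub_right W y y']
  have h6 : ⟪W, γ y - y'⟫ ≤ ‖W‖ * ‖γ y - y'‖ := real_inner_le_norm _ _
  have h7 : - (‖W‖ * (η * D.R)) ≤ ⟪W, γ y - y - W⟫ := by
    have h8 := abs_real_inner_le_norm W (γ y - y - W)
    have h9 := hd y hyB
    have h10 := neg_abs_le ⟪W, γ y - y - W⟫
    have h11 : ‖W‖ * ‖γ y - y - W‖ ≤ ‖W‖ * (η * D.R) := by gcongr
    linarith
  have h8 : ‖W‖ * ‖γ y - y'‖ ≤ ‖W‖ * η := by gcongr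
  rw [hWn] at h5 h6 h7 h8
  nlinarith

end Pool.Agent.Lib.MP_ccd76d_co
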