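import Mathlib
import Pool.Agent.Lib.MP_ccd76d_co.Near

set_option autoImplicit false

namespace Pool.Agent.Lib.MP_ccd76d_co

open Metric Set Filter
open scoped RealInnerProductSpace Topology

variable {E : Type*} [NormedAddCommGroup E] [InnerProductSpace ℝ E] {C : Set (Set E)}

lemma iso_inv_zero (g : E ≃ᵃⁱ[ℝ] E) : g (g⁻¹ 0) = 0 := apply_inv_self' g 0

/-- the value at `0` of iterated commutators of a translation -/
lemma ic_trans (g κ : E ≃ᵃⁱ[ℝ] E) (hκ : lin κ = 1) (k : ℕ) :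
    lin (ic g κ k) = 1 ∧ (ic g κ (k + 1)) 0 = lin g ((ic g κ k) 0) - (ic g κ k) 0 := by
  have h1 : ∀ k, lin (ic g κ k) = 1 := by
    intro k
    induction k with
    | zero => exact hκ
    | succ k ih => simp only [ic, map_mul, map_inv, ih]; group
  refine ⟨h1 k, ?_⟩
  set τ := ic g κ k with hτ
  have hτx : ∀ x, τ x = x + τ 0 := by
    intro x; rw [iso_apply τ x, h1 k]; simp
  have hτinv : τ⁻¹ 0 = - τ 0 := by
    have h2 := hτx (τ⁻¹ 0)
    rw [apply_inv_self'] at h2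
    exact eq_neg_of_add_eq_zero_left h2.symm
  have e : (ic g κ (k + 1)) 0 = g (τ (g⁻¹ (τ⁻¹ 0))) := rfl
  rw [e, hτx, iso_apply g, map_add]
  have h3 : lin g (g⁻¹ (τ⁻¹ 0)) + g 0 = τ⁻¹ 0 := by
    rw [← iso_apply g, apply_inv_self']
  have h4 : lin g (g⁻¹ (τ⁻¹ 0)) + lin g (τ 0) + g 0 = (lin g (g⁻¹ (τ⁻¹ 0)) + g 0) + lin g (τ 0) := by
    abel
  rw [h4, h3, hτinv]; abel

lemma AS.ic {g κ : E ≃ᵃⁱ[ℝ] E} (hg : AS C g) (hκ : AS C κ) (k : ℕ) : AS C (ic g κ k) := by
  induction k with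
  | zero => exact hκ
  | succ k ih => exact ((hg.mul ih).mul hg.inv).mul ih.inv

lemma trans_fixed [FiniteDimensional ℝ E] [Nontrivial E] (D : Good C) (g κ : E ≃ᵃⁱ[ℝ] E)
    (hg : AS C g) (hκ : AS C κ) (hν : nu (lin g) ≤ 1 / 2) (hl : lin κ = 1) :
    lin g (κ 0) = κ 0 := by
  obtain ⟨η, hη, hnear⟩ := near_one D
  obtain ⟨w, hw⟩ := exists_ne (0 : E)
  -- norms decay
  have hdec : ∀ k : ℕ, ‖(ic g κ k) 0‖ ≤ (1 / 2) ^ k * ‖κ 0‖ := by
    intro k
    induction k with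
    | zero => simp [ic]
    | succ k ih =>
      rw [(ic_trans g κ hl k).2]
      have h1 := nu_apply_le (lin g) ((ic g κ k) 0)
      have h2 := norm_nonneg ((ic g κ k) 0)
      calc _ ≤ nu (lin g) * ‖(ic g κ k) 0‖ := h1
        _ ≤ 1 / 2 * ‖(ic g κ k) 0‖ := by gcongr
        _ ≤ 1 / 2 * ((1 / 2) ^ k * ‖κ 0‖) := by gcongr
        _ = _ := by rw [pow_succ]; ring
  obtain ⟨k, hk⟩ : ∃ k : ℕ, (1 / 2 : ℝ) ^ k * ‖κ 0‖ ≤ η := by
    obtain ⟨k, hk⟩ := exists_pow_lt_of_lt_one (show 0 < η / (‖κ 0‖ + 1) by positivity)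
      (show (1 / 2 : ℝ) < 1 by norm_num)
    refine ⟨k, ?_⟩
    rw [lt_div_iff₀ (by positivity)] at hk
    have : (0 : ℝ) ≤ (1 / 2) ^ k := by positivity
    nlinarith
  have hk1 : ic g κ k = 1 := by
    apply hnear _ (hg.ic hκ k)
    · rw [(ic_trans g κ hl k).1, nu_one]; exact hη.le
    · exact ⟨0, by rw [sub_zero]; exact (hdec k).trans hk⟩
    · exact ⟨w, hw, by rw [(ic_trans g κ hl k).1]; simp⟩
  -- descend
  have hzero : ∀ k : ℕ, (ic g κ (k + 1)) 0 = 0 → lin g (κ 0) = κ 0 := by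
    intro k
    induction k with
    | zero =>
      intro h
      rw [(ic_trans g κ hl 0).2] at h
      exact sub_eq_zero.mp h
    | succ k ih =>
      intro h
      apply ih
      rw [(ic_trans g κ hl (k + 1)).2] at h
      have hfix := sub_eq_zero.mp h
      have h2 := inner_fix (lin g) hfix ((ic g κ k) 0)
      rw [← (ic_trans g κ hl k).2] at h2
      exact inner_self_eq_zero.mp h2
  cases k with
  | zero =>
    have : κ 0 = 0 := by
      have := congrArg (fun f : E ≃ᵃⁱ[ℝ] E => f 0) hk1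
      simpa [ic] using this
    rw [this, map_zero]
  | succ k =>
    apply hzero k
    rw [hk1]; rfl

theorem commute_of_lin [FiniteDimensional ℝ E] [Nontrivial E] (D : Good C) (g h : E ≃ᵃⁱ[ℝ] E)
    (hg : AS C g) (hh : AS C h) (hνg : nu (lin g) ≤ 1 / 2) (hνh : nu (lin h) ≤ 1 / 2)
    (hc : Commute (lin g) (lin h)) : Commute g h := by
  set κ := g * h * g⁻¹ * h⁻¹ with hκ
  have hl : lin κ = 1 := by
    rw [hκ]
    simp only [map_mul, map_inv]
    rw [hc.eq]; group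
  have hκS : AS C κ := ((hg.mul hh).mul hg.inv).mul hh.inv
  have h1 := trans_fixed D g κ hg hκS hνg hl
  have h2 := trans_fixed D h κ hh hκS hνh hl
  have h3 : κ (h (g 0)) = g (h 0) := by
    have : κ * (h * g) = g * h := by rw [hκ]; group
    have h4 := congrArg (fun f : E ≃ᵃⁱ[ℝ] E => f 0) this
    exact h4
  have h4 : κ 0 = (lin g (h 0) - h 0) - (lin h (g 0) - g 0) := by
    rw [iso_apply κ, hl, iso_apply h (g 0), iso_apply g (h 0)] at h3
    simp only [LinearIsometryEquiv.coe_one, id_eq] at h3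
    have h5 : κ 0 = (lin g (h 0) + g 0) - (lin h (g 0) + h 0) := by
      rw [← h3]; abel
    rw [h5]; abel
  have h5 : κ 0 = 0 := by
    have h6 : ⟪κ 0, κ 0⟫ = 0 := by
      conv_lhs => rw [h4, inner_sub_right]
      rw [← h4, inner_fix _ h1, inner_fix _ h2, sub_zero]
    exact inner_self_eq_zero.mp h6
  have h6 : κ = 1 := iso_eq_one hl h5
  have h7 : g * h = κ * (h * g) := by rw [hκ]; group
  rw [h6, one_mul] at h7
  exact h7

lemma escape [FiniteDimensional ℝ E] (g : E ≃ᵃⁱ[ℝ] E) (hg : ∀ p, g p ≠ p) {X : Set E}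
    (hX : Bornology.IsBounded X) (Λ : ℝ) : ∃ m : ℕ, ∀ x ∈ X, Λ ≤ ‖(g ^ m) x‖ := by
  obtain ⟨a0, q, ha0, ha⟩ := exists_solve (lin g) (g 0)
  have ha0n : a0 ≠ 0 := by
    intro h0
    apply hg q
    rw [iso_apply, ha, h0]; abel
  have hpos : 0 < ‖a0‖ := norm_pos_iff.mpr ha0n
  have h1 : ∀ m : ℕ, ∀ x, ⟪a0, (g ^ m) x⟫ = ⟪a0, x⟫ + m * ‖a0‖ ^ 2 := by
    intro m
    induction m with
    | zero => intro x; simp
    | succ m ih =>
      intro x
      have e : (g ^ (m + 1)) x = g ((g ^ m) x) := by rw [pow_succ']; rfl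
      have h2 := iso_disp ha ((g ^ m) x)
      have h3 : g ((g ^ m) x) = (g ^ m) x + ((lin g ((g ^ m) x - q) - ((g ^ m) x - q)) + a0) := by
        rw [← h2]; abel
      rw [e, h3, inner_add_right, inner_add_right, inner_fix _ ha0, ih,
        real_inner_self_eq_norm_sq]
      push_cast; ring
  obtain ⟨M, hM⟩ := hX.exists_norm_le
  obtain ⟨m, hm⟩ := exists_nat_gt ((Λ + M) / ‖a0‖)
  refine ⟨m, fun x hx => ?_⟩
  rw [div_lt_iff₀ hpos] at hm
  have h2 := h1 m x
  have h3 := real_inner_le_norm a0 ((g ^ m) x)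
  have h4 := abs_real_inner_le_norm a0 x
  have h5 := neg_abs_le ⟪a0, x⟫
  have h6 := hM x hx
  have h7 : ‖a0‖ * (m * ‖a0‖ - M) ≤ ‖a0‖ * ‖(g ^ m) x‖ := by
    have h8 : ‖a0‖ * ‖x‖ ≤ ‖a0‖ * M := by gcongr
    nlinarith
  have h8 := le_of_mul_le_mul_left h7 hpos
  linarith

/-- discreteness of the centralizer of a fixed point free element -/
theorem center_discrete [FiniteDimensional ℝ E] (D : Good C) (g : E ≃ᵃⁱ[ℝ] E)
    (hg : ∀ p, g p ≠ p) {e e' : Set E} (he : Bornology.IsBounded e) (he' : Bornology.IsBounded e')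
    (hne : e.Nonempty) (hne' : e'.Nonempty) :
    ∃ ε : ℝ, 0 < ε ∧ ∀ γ : E ≃ᵃⁱ[ℝ] E, AS C γ → Commute γ g →
      hausdorffDist e (act γ e') < ε → hausdorffDist e (act γ e') = 0 := by
  obtain ⟨η, hη, hnear⟩ := near_one D
  by_contra hcon
  push Not at hcon
  have hseq : ∀ n : ℕ, ∃ γ : E ≃ᵃⁱ[ℝ] E, AS C γ ∧ Commute γ g ∧
      hausdorffDist e (act γ e') < 1 / ((n : ℝ) + 1) ∧ hausdorffDist e (act γ e') ≠ 0 :=
    fun n => hcon _ (by positivity)
  choose γ hγS hγc hγd hγ0 using hseq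
  obtain ⟨Me, hMe⟩ := he.exists_norm_le
  obtain ⟨x', hx'⟩ := hne'
  -- boundedness
  have hbd : ∀ n, ‖γ n 0‖ ≤ Me + 1 + ‖x'‖ := by
    intro n
    have hfin : hausdorffEDist e (act (γ n) e') ≠ ⊤ :=
      hausdorffEDist_ne_top_of_nonempty_of_bounded hne ⟨_, mem_image_of_mem _ hx'⟩
        he ((γ n).isometry.lipschitz.isBounded_image he')
    have h1 : hausdorffDist (act (γ n) e') e < 1 := by
      rw [hausdorffDist_comm]
      refine (hγd n).trans_le ?_
      rw [div_le_one (by positivity)]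
      have : (0 : ℝ) ≤ n := Nat.cast_nonneg n
      linarith
    obtain ⟨y, hy, hyd⟩ := exists_dist_lt_of_hausdorffDist_lt (mem_image_of_mem (γ n) hx') h1
      (by rw [hausdorffEDist_comm]; exact hfin)
    rw [dist_eq_norm] at hyd
    have h2 := hMe y hy
    have h3 : ‖γ n x'‖ ≤ Me + 1 := by
      have : γ n x' = (γ n x' - y) + y := by abel
      rw [this]
      refine (norm_add_le _ _).trans ?_
      linarith
    have h4 := iso_apply (γ n) x'
    have h5 : γ n 0 = γ n x' - lin (γ n) x' := by rw [h4]; abel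
    rw [h5]
    refine (norm_sub_le _ _).trans ?_
    rw [LinearIsometryEquiv.norm_map]
    linarith
  let z : ℕ → (E →L[ℝ] E) × E := fun n => (cl (lin (γ n)), γ n 0)
  have hz : ∀ n, z n ∈ closedBall (0 : (E →L[ℝ] E) × E) (1 + (Me + 1 + ‖x'‖)) := by
    intro n
    rw [mem_closedBall, dist_zero_right, Prod.norm_def]
    have h1 := cl_norm_le (lin (γ n))
    have h2 := hbd n
    have h3 : 0 ≤ ‖γ n 0‖ := norm_nonneg _
    exact max_le (by simp only [z]; linarith) (by simp only [z]; linarith)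
  have : ProperSpace ((E →L[ℝ] E) × E) := FiniteDimensional.proper ℝ _
  obtain ⟨zl, _, φ, hφ, hlim⟩ := (isCompact_closedBall (0 : (E →L[ℝ] E) × E)
    (1 + (Me + 1 + ‖x'‖))).tendsto_subseq hz
  have hcau := hlim.cauchySeq
  obtain ⟨N, hN⟩ := Metric.cauchySeq_iff.mp hcau η hη
  have key : ∀ n ≥ N, γ (φ n) = γ (φ N) := by
    intro n hn
    have h1 := hN n hn N le_rfl
    simp only [Function.comp, z, Prod.dist_eq, max_lt_iff] at h1
    obtain ⟨h1, h2⟩ := h1
    set κ := (γ (φ N))⁻¹ * γ (φ n) with hκ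
    have hκS : AS C κ := (hγS _).inv.mul (hγS _)
    have hκc : Commute κ g := (hγc _).inv_left.mul_left (hγc _)
    have hν : nu (lin κ) ≤ η := by
      have e : cl (lin κ) - 1 = cl (lin (γ (φ N)))⁻¹ * (cl (lin (γ (φ n))) - cl (lin (γ (φ N)))) := by
        rw [mul_sub, ← cl_mul, ← cl_mul, hκ]; simp
      unfold nu
      rw [e]
      refine (norm_cl_mul_le _ _).trans ?_
      rw [← dist_eq_norm]; exact h1.le
    have h0 : ‖κ 0 - 0‖ ≤ η := by
      rw [← dist_eq_norm]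
      have : dist (κ 0) 0 = dist (γ (φ N) (κ 0)) (γ (φ N) 0) := ((γ (φ N)).isometry.dist_eq _ _).symm
      rw [this]
      have h3 : γ (φ N) (κ 0) = γ (φ n) 0 := by
        have : γ (φ N) * κ = γ (φ n) := by rw [hκ]; group
        exact congrArg (fun f : E ≃ᵃⁱ[ℝ] E => f 0) this
      rw [h3]; exact h2.le
    have hκ1 : κ = 1 := by
      by_cases hw : ∃ w, w ≠ 0 ∧ lin κ w = w
      · exact hnear κ hκS hν ⟨0, h0⟩ hw
      · exfalso
        push Not at hw
        obtain ⟨a0, q, ha0, ha⟩ := exists_solve (lin κ) (κ 0)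
        have ha00 : a0 = 0 := by
          by_contra h
          exact hw a0 h ha0
        have hq : κ q = q := by
          rw [iso_apply, ha, ha00]; abel
        have hgq : κ (g q) = g q := by
          have : (κ * g) q = (g * κ) q := by rw [hκc.eq]
          have h4 : κ (g q) = g (κ q) := this
          rw [h4, hq]
        apply hg q
        have h5 := iso_sub κ (g q) q
        rw [hgq, hq] at h5
        by_contra hne2
        exact hw _ (sub_ne_zero.mpr hne2) h5.symm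
    have : γ (φ N) * κ = γ (φ n) := by rw [hκ]; group
    rw [hκ1, mul_one] at this
    exact this.symm
  -- contradiction
  have hpos : 0 < hausdorffDist e (act (γ (φ N)) e') :=
    lt_of_le_of_ne hausdorffDist_nonneg (Ne.symm (hγ0 _))
  obtain ⟨n, hn⟩ := exists_nat_one_div_lt hpos
  have h1 := hγd (φ (max n N))
  rw [key _ (le_max_right _ _)] at h1
  have h2 : n ≤ φ (max n N) := (le_max_left n N).trans (hφ.id_le _)
  have h3 : 1 / ((φ (max n N) : ℝ) + 1) ≤ 1 / ((n : ℝ) + 1) := by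
    apply one_div_le_one_div_of_le (by positivity)
    have : (n : ℝ) ≤ (φ (max n N) : ℝ) := by exact_mod_cast h2
    linarith
  linarith


/-- the boundary bodies of `g` -/
def bdry (C : Set (Set E)) (g : E ≃ᵃⁱ[ℝ] E) : Set (Set E) :=
  {B | B ∈ C ∧ (act g B ∉ C ∨ act g⁻¹ B ∉ C)}

lemma bdry_finite (D : Good C) {g : E ≃ᵃⁱ[ℝ] E} (hg : AS C g) : (bdry C g).Finite := by
  obtain ⟨Λ, hP⟩ := hg
  have hsub : bdry C g ⊆ {A | A ∈ C ∧ ∃ x ∈ A, ‖x‖ ≤ max 1 Λ} := by
    rintro B ⟨hB, hor⟩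
    refine ⟨hB, ?_⟩
    by_contra hcon
    push Not at hcon
    have hfar : ∀ x ∈ B, Λ ≤ ‖x‖ := fun x hx => (le_max_right 1 Λ).trans (hcon x hx).le
    rcases hor with h | h
    · exact h (hP.2.1 B hB hfar)
    · exact h (hP.2.2 B hB hfar)
  refine Set.Finite.subset ?_ hsub
  by_contra hinf
  obtain ⟨t, ht, htc⟩ := Set.Infinite.exists_subset_card_eq hinf
    (⌊D.cst * (max 1 Λ) ^ D.dm⌋₊ + 1)
  have := D.count (max 1 Λ) (le_max_left _ _) t (fun A hA => ht hA)
  rw [htc] at this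
  push_cast at this
  have h2 := Nat.lt_floor_add_one (D.cst * (max 1 Λ) ^ D.dm)
  linarith

lemma crossing [FiniteDimensional ℝ E] (D : Good C) {g k : E ≃ᵃⁱ[ℝ] E}
    (hgf : ∀ p, g p ≠ p) (hk : AS C k) (hc : Commute g k) {X : Set E}
    (hX : X ∈ C) (hkX : act k X ∉ C) :
    ∃ m : ℤ, act (g ^ m) X ∈ bdry C g ∨ act (g ^ m) (act k X) ∈ bdry C g := by
  by_contra hcon
  push Not at hcon
  have hstep : ∀ (Y : Set E) (m : ℤ), act (g ^ (m + 1)) Y = act g (act (g ^ m) Y) := by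
    intro Y m; rw [← act_mul]; congr 1; rw [add_comm, zpow_add, zpow_one]
  have hstep' : ∀ (Y : Set E) (m : ℤ), act (g ^ m) Y = act g⁻¹ (act (g ^ (m + 1)) Y) := by
    intro Y m; rw [hstep, act_inv_act]
  have hin : ∀ m : ℕ, act (g ^ (m : ℤ)) X ∈ C := by
    intro m
    induction m with
    | zero => simpa using hX
    | succ m ih =>
      by_contra hne
      apply (hcon m).1
      refine ⟨ih, Or.inl ?_⟩
      rw [← hstep]
      exact_mod_cast hne
  have hout : ∀ m : ℕ, act (g ^ (m : ℤ)) (act k X) ∉ C := by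
    intro m
    induction m with
    | zero => simpa using hkX
    | succ m ih =>
      intro hmem
      apply (hcon ((m : ℤ) + 1)).2
      push_cast at hmem
      refine ⟨hmem, Or.inr ?_⟩
      rw [← hstep']
      exact ih
  obtain ⟨Λ, hP⟩ := hk
  obtain ⟨m, hm⟩ := escape g hgf (D.cpt X hX).isBounded Λ
  apply hout m
  have h1 := hP.2.1 _ (hin m) (by
    rintro _ ⟨x, hx, rfl⟩
    rw [zpow_natCast]
    exact hm x hx)
  rw [← act_mul] at h1 ⊢
  have h2 : g ^ (m : ℤ) * k = k * g ^ (m : ℤ) := (hc.zpow_left m).eq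
  rw [h2]; exact h1

/-- `γ` is a nontrivial almost-symmetry coming from an `ε`-small finite rearrangement. -/
def W (C : Set (Set E)) (γ : E ≃ᵃⁱ[ℝ] E) (ε : ℝ) : Prop :=
  AS C γ ∧ Sy C γ ε ∧ Sy C γ⁻¹ ε ∧ ∃ B ∈ C, act γ⁻¹ B ∉ C

lemma Sy.mono {γ : E ≃ᵃⁱ[ℝ] E} {ε ε' : ℝ} (h : Sy C γ ε) (hle : ε ≤ ε') : Sy C γ ε' := by
  intro B hB
  obtain ⟨B', hB', h1⟩ := h B hB
  exact ⟨B', hB', h1.trans_le hle⟩

lemma W.mono {γ : E ≃ᵃⁱ[ℝ] E} {ε ε' : ℝ} (h : W C γ ε) (hle : ε ≤ ε') : W C γ ε' :=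
  ⟨h.1, h.2.1.mono hle, h.2.2.1.mono hle, h.2.2.2⟩

omit [InnerProductSpace ℝ E] in
lemma hd_pos {A B : Set E} (hA : IsCompact A) (hB : IsCompact B) (nA : A.Nonempty)
    (nB : B.Nonempty) (hne : A ≠ B) : 0 < hausdorffDist A B := by
  refine lt_of_le_of_ne hausdorffDist_nonneg (fun h => hne ?_)
  have := (hausdorffDist_zero_iff_closure_eq_closure (hed hA hB nA nB)).mp h.symm
  rwa [hA.isClosed.closure_eq, hB.isClosed.closure_eq] at this

/-- near-identity rotation parts can be achieved -/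
lemma W_small [FiniteDimensional ℝ E] (D : Good C)
    (H : ∀ ε : ℝ, 0 < ε → ∃ γ : E ≃ᵃⁱ[ℝ] E, W C γ ε) (θ ε : ℝ) (hθ : 0 < θ) (hε : 0 < ε) :
    ∃ γ : E ≃ᵃⁱ[ℝ] E, W C γ ε ∧ nu (lin γ) ≤ θ := by
  choose γ hγ using fun n : ℕ => H (1 / ((n : ℝ) + 1)) (by positivity)
  let z : ℕ → (E →L[ℝ] E) := fun n => cl (lin (γ n))
  have hz : ∀ n, z n ∈ closedBall (0 : (E →L[ℝ] E)) 1 := by
    intro n
    rw [mem_closedBall, dist_zero_right]
    exact cl_norm_le _
  have : ProperSpace (E →L[ℝ] E) := FiniteDimensional.proper ℝ _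
  obtain ⟨zl, _, φ, hφ, hlim⟩ := (isCompact_closedBall (0 : (E →L[ℝ] E)) 1).tendsto_subseq hz
  obtain ⟨N, hN⟩ := Metric.cauchySeq_iff.mp hlim.cauchySeq θ hθ
  have small : ∀ δ : ℝ, 0 < δ → ∃ n ≥ N, 1 / ((φ n : ℝ) + 1) < δ := by
    intro δ hδ
    obtain ⟨n, hn⟩ := exists_nat_one_div_lt hδ
    refine ⟨max n N, le_max_right _ _, ?_⟩
    have h2 : n ≤ φ (max n N) := (le_max_left n N).trans (hφ.id_le _)
    refine lt_of_le_of_lt ?_ hn
    apply one_div_le_one_div_of_le (by positivity)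
    have : (n : ℝ) ≤ (φ (max n N) : ℝ) := by exact_mod_cast h2
    linarith
  have hc0 := D.c0_pos
  obtain ⟨m, hmN, hm⟩ := small (min (ε / 2) (D.c0 / 2)) (by positivity)
  set a := γ (φ m) with ha
  have haW : W C a (min (ε / 2) (D.c0 / 2)) := (hγ (φ m)).mono hm.le
  obtain ⟨B, hB, hBn⟩ := haW.2.2.2
  -- the displaced body
  obtain ⟨B2, hB2, hd⟩ := haW.2.2.1 B hB
  have hd' : hausdorffDist B (act a B2) < min (ε / 2) (D.c0 / 2) := by
    have := hd_act a (act a⁻¹ B) B2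
    rw [act_act_inv] at this
    rw [this]; exact hd
  have hne : B ≠ act a B2 := by
    intro h
    apply hBn
    rw [h, act_inv_act]; exact hB2
  have hpos := hd_pos (D.cpt B hB) (act_cpt (D.cpt B2 hB2) a) (D.ne B hB) ((D.ne B2 hB2).image _) hne
  obtain ⟨n, hnN, hn⟩ := small (min (min (ε / 2) (D.c0 / 2)) (hausdorffDist B (act a B2)))
    (by positivity)
  set b := γ (φ n) with hb
  have hbW : W C b (min (min (ε / 2) (D.c0 / 2)) (hausdorffDist B (act a B2))) :=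
    (hγ (φ n)).mono hn.le
  have hbε : min (min (ε / 2) (D.c0 / 2)) (hausdorffDist B (act a B2)) ≤ ε / 2 :=
    (min_le_left _ _).trans (min_le_left _ _)
  have haε : min (ε / 2) (D.c0 / 2) ≤ ε / 2 := min_le_left _ _
  refine ⟨a⁻¹ * b, ⟨haW.1.inv.mul hbW.1, ?_, ?_, ?_⟩, ?_⟩
  · have := Sy.mul D (haW.2.2.1.mono haε) (hbW.2.1.mono hbε)
    rwa [add_halves] at this
  · have := Sy.mul D (hbW.2.2.1.mono hbε) (haW.2.1.mono haε)
    rw [add_halves] at this
    rw [mul_inv_rev, inv_inv]; exact this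
  · -- some body is displaced
    by_contra hcon
    push Not at hcon
    have h1 := hcon B2 hB2
    rw [mul_inv_rev, inv_inv, act_mul] at h1
    obtain ⟨B3, hB3, h3⟩ := hbW.2.2.1 B hB
    have h3' : hausdorffDist B (act b B3) < hausdorffDist B (act a B2) := by
      have := hd_act b (act b⁻¹ B) B3
      rw [act_act_inv] at this
      rw [this]; exact h3.trans_le (min_le_right _ _)
    have h3c : hausdorffDist B (act b B3) < D.c0 / 2 := by
      have := hd_act b (act b⁻¹ B) B3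
      rw [act_act_inv] at this
      rw [this]; exact h3.trans_le ((min_le_left _ _).trans (min_le_right _ _))
    have h4 : hausdorffDist (act b⁻¹ (act a B2)) B3 < D.c0 := by
      have e : hausdorffDist (act b⁻¹ (act a B2)) B3 = hausdorffDist (act a B2) (act b B3) := by
        have := hd_act b (act b⁻¹ (act a B2)) B3
        rw [act_act_inv] at this
        exact this.symm
      rw [e]
      have h5 := hausdorffDist_triangle (s := act a B2) (t := B) (u := act b B3)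
        (hed (act_cpt (D.cpt B2 hB2) a) (D.cpt B hB) ((D.ne B2 hB2).image _) (D.ne B hB))
      have h7 : hausdorffDist (act a B2) B = hausdorffDist B (act a B2) := hausdorffDist_comm
      have h6 := hd'.trans_le (min_le_right _ _)
      linarith
    have h5 := D.sep _ h1 _ hB3 h4
    rw [← h5, act_act_inv] at h3'
    exact lt_irrefl _ h3'
  · have h1 := hN n hnN m hmN
    simp only [Function.comp, z] at h1
    have e : cl (lin (a⁻¹ * b)) - 1 = cl (lin a)⁻¹ * (cl (lin b) - cl (lin a)) := by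
      rw [mul_sub, ← cl_mul, ← cl_mul]; simp
    unfold nu
    rw [e]
    refine (norm_cl_mul_le _ _).trans ?_
    rw [← dist_eq_norm]; exact h1.le

theorem no_W [FiniteDimensional ℝ E] [Nontrivial E] (D : Good C) :
    ¬ ∀ ε : ℝ, 0 < ε → ∃ γ : E ≃ᵃⁱ[ℝ] E, W C γ ε := by
  intro H
  obtain ⟨θ, hθ, hlin⟩ := lin_commute D
  obtain ⟨η, hη, hnofix⟩ := no_fix D
  set θ' := min (min θ η) (1 / 2) with hθ'
  have hθ'pos : 0 < θ' := by positivity
  have hcomm : ∀ g h : E ≃ᵃⁱ[ℝ] E, AS C g → AS C h → nu (lin g) ≤ θ' → nu (lin h) ≤ θ' →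
      Commute g h := by
    intro g h hg hh h1 h2
    have hle1 : θ' ≤ θ := (min_le_left _ _).trans (min_le_left _ _)
    have hle2 : θ' ≤ 1 / 2 := min_le_right _ _
    exact commute_of_lin D g h hg hh (h1.trans hle2) (h2.trans hle2)
      (hlin g h hg hh (h1.trans hle1) (h2.trans hle1))
  obtain ⟨g, hgW, hgν⟩ := W_small D H θ' η hθ'pos hη
  have hgf : ∀ p, g p ≠ p := by
    intro p hp
    have h1 : lin g = 1 := hnofix g
      (hgν.trans ((min_le_left _ _).trans (min_le_right _ _))) hgW.2.1 ⟨p, hp⟩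
    have h2 : g 0 = 0 := by
      have := iso_apply g p
      rw [hp, h1] at this
      simpa using this
    have h3 := iso_eq_one h1 h2
    obtain ⟨B, hB, hBn⟩ := hgW.2.2.2
    apply hBn
    rw [h3]; simpa using hB
  have hfin := bdry_finite D hgW.1
  -- uniform gap
  have hgap : ∃ ε : ℝ, 0 < ε ∧ ∀ e ∈ bdry C g, ∀ e' ∈ bdry C g, ∀ γ : E ≃ᵃⁱ[ℝ] E, AS C γ →
      Commute γ g → hausdorffDist e (act γ e') < ε → hausdorffDist e (act γ e') = 0 := by
    have hpair : ∀ p : Set E × Set E, ∃ ε : ℝ, 0 < ε ∧ (p.1 ∈ bdry C g → p.2 ∈ bdry C g →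
        ∀ γ : E ≃ᵃⁱ[ℝ] E, AS C γ → Commute γ g → hausdorffDist p.1 (act γ p.2) < ε →
        hausdorffDist p.1 (act γ p.2) = 0) := by
      rintro ⟨e, e'⟩
      by_cases h : e ∈ bdry C g ∧ e' ∈ bdry C g
      · obtain ⟨ε, hε, h2⟩ := center_discrete D g hgf (D.cpt e h.1.1).isBounded
          (D.cpt e' h.2.1).isBounded (D.ne e h.1.1) (D.ne e' h.2.1)
        exact ⟨ε, hε, fun _ _ => h2⟩
      · exact ⟨1, one_pos, fun h1 h2 => absurd ⟨h1, h2⟩ h⟩
    choose f hf hf2 using hpair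
    have hfin2 : ((bdry C g) ×ˢ (bdry C g)).Finite := hfin.prod hfin
    by_cases hemp : ((bdry C g) ×ˢ (bdry C g)).Nonempty
    · obtain ⟨p, hp, hmin⟩ := hfin2.exists_minimalFor f _ hemp
      refine ⟨f p, hf p, fun e he e' he' γ h1 h2 h3 => ?_⟩
      have h4 : f p ≤ f (e, e') := by
        by_contra hlt
        push Not at hlt
        exact absurd (hmin (show (e, e') ∈ _ from ⟨he, he'⟩) hlt.le) (not_le.mpr hlt)
      exact hf2 (e, e') he he' γ h1 h2 (h3.trans_le h4)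
    · refine ⟨1, one_pos, fun e he e' he' => ?_⟩
      exact absurd ⟨(e, e'), he, he'⟩ hemp
  obtain ⟨ε, hε, hgap⟩ := hgap
  have hc0 := D.c0_pos
  obtain ⟨k, hkW, hkν⟩ := W_small D H θ' (min ε D.c0) hθ'pos (by positivity)
  have hgk : Commute g k := hcomm g k hgW.1 hkW.1 hgν hkν
  obtain ⟨B, hB, hBn⟩ := hkW.2.2.2
  obtain ⟨B2, hB2, hd⟩ := hkW.2.2.1 B hB
  have hd' : hausdorffDist B (act k B2) < min ε D.c0 := by
    have := hd_act k (act k⁻¹ B) B2
    rw [act_act_inv] at this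
    rw [this]; exact hd
  have hne : B ≠ act k B2 := by
    intro h
    apply hBn
    rw [h, act_inv_act]; exact hB2
  have hpos := hd_pos (D.cpt B hB) (act_cpt (D.cpt B2 hB2) k) (D.ne B hB) ((D.ne B2 hB2).image _) hne
  have hB'n : act k B2 ∉ C := fun h => hne (D.sep _ hB _ h (hd'.trans_le (min_le_right _ _)))
  obtain ⟨m, hm⟩ := crossing D hgf hkW.1.inv hgk.inv_right hB hBn
  obtain ⟨m', hm'⟩ := crossing D hgf hkW.1 hgk hB2 hB'n
  -- B and B' are images of boundary bodies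
  have h1 : ∃ δ : E ≃ᵃⁱ[ℝ] E, AS C δ ∧ Commute δ g ∧ act δ B ∈ bdry C g := by
    rcases hm with h | h
    · exact ⟨g ^ m, hgW.1.zpow m, (Commute.refl g).zpow_left m, h⟩
    · refine ⟨g ^ m * k⁻¹, (hgW.1.zpow m).mul hkW.1.inv, ?_, by rw [act_mul]; exact h⟩
      exact ((Commute.refl g).zpow_left m).mul_left hgk.symm.inv_left
  have h2 : ∃ δ : E ≃ᵃⁱ[ℝ] E, AS C δ ∧ Commute δ g ∧ act δ (act k B2) ∈ bdry C g := by
    rcases hm' with h | h
    · refine ⟨g ^ m' * k⁻¹, (hgW.1.zpow m').mul hkW.1.inv, ?_, by rw [act_mul, act_inv_act]; exact h⟩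
      exact ((Commute.refl g).zpow_left m').mul_left hgk.symm.inv_left
    · exact ⟨g ^ m', hgW.1.zpow m', (Commute.refl g).zpow_left m', h⟩
  obtain ⟨δ1, hδ1S, hδ1c, hδ1⟩ := h1
  obtain ⟨δ2, hδ2S, hδ2c, hδ2⟩ := h2
  have h3 := hgap _ hδ1 _ hδ2 (δ1 * δ2⁻¹) (hδ1S.mul hδ2S.inv) (hδ1c.mul_left hδ2c.inv_left)
  have h4 : act (δ1 * δ2⁻¹) (act δ2 (act k B2)) = act δ1 (act k B2) := by
    rw [act_mul, act_inv_act]
  rw [h4, hd_act] at h3
  have h5 := h3 (hd'.trans_le (min_le_left _ _))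
  exact absurd h5 hpos.ne'

end Pool.Agent.Lib.MP_ccd76d_co
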