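import Mathlib
import Pool.Agent.Lib.MP_ccd76d_co.Final
import Pool.Agent.Lib.MP_ccd76d_co.Defs

set_option autoImplicit false

namespace Pool.Agent.Lib.MP_ccd76d_co

open Metric Set MeasureTheory
open scoped RealInnerProductSpace ENNReal

variable {d : ℕ}

/-- Euclidean space (abbreviation used in the proofs only) -/
abbrev Sp (d : ℕ) := EuclideanSpace ℝ (Fin d)

/-- centre of mass -/
noncomputable def bary (B : Set (Sp d)) : Sp d := ⨍ x in B, x ∂volume

lemma iso_mp (γ : Sp d ≃ᵃⁱ[ℝ] Sp d) : MeasurePreserving γ (volume : Measure (Sp d)) volume := by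
  have h1 : MeasurePreserving (lin γ) (volume : Measure (Sp d)) volume :=
    (lin γ).measurePreserving
  have h2 : MeasurePreserving (fun x : Sp d => x + γ 0) (volume : Measure (Sp d)) volume :=
    measurePreserving_add_right volume (γ 0)
  have h3 := h2.comp h1
  have e : (fun x : Sp d => x + γ 0) ∘ (lin γ) = γ := by
    funext x; exact (iso_apply γ x).symm
  rwa [e] at h3

lemma iso_me (γ : Sp d ≃ᵃⁱ[ℝ] Sp d) : MeasurableEmbedding γ :=
  γ.toHomeomorph.measurableEmbedding

lemma vol_act (γ : Sp d ≃ᵃⁱ[ℝ] Sp d) (B : Set (Sp d)) : volume (act γ B) = volume B := by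
  have h := (iso_mp γ).measure_preimage_emb (iso_me γ) (act γ B)
  have e : γ ⁻¹' (act γ B) = B := preimage_image_eq _ γ.injective
  rw [e] at h
  exact h.symm

lemma bary_act (γ : Sp d ≃ᵃⁱ[ℝ] Sp d) {B : Set (Sp d)} (hB : IsCompact B) (h0 : volume B ≠ 0) :
    bary (act γ B) = γ (bary B) := by
  have hfin : volume B ≠ ∞ := hB.measure_lt_top.ne
  have hint : IntegrableOn (fun x : Sp d => x) B volume := by
    exact continuous_id.continuousOn.integrableOn_compact hB
  have h1 : ∫ y in act γ B, y ∂volume = ∫ x in B, γ x ∂volume :=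
    (iso_mp γ).setIntegral_image_emb (iso_me γ) (fun y => y) B
  have h2 : ∫ x in B, γ x ∂volume = lin γ (∫ x in B, x ∂volume) + (volume.real B) • γ 0 := by
    have e : (fun x => γ x) = fun x => cl (lin γ) x + γ 0 := by
      funext x; rw [iso_apply γ x]; rfl
    rw [e, integral_add]
    · rw [ContinuousLinearMap.integral_comp_comm _ hint]
      simp
    · exact (cl (lin γ)).integrable_comp hint
    · exact integrableOn_const hfin
  unfold bary
  rw [setAverage_eq, setAverage_eq, h1, h2]
  have h3 : volume.real (act γ B) = volume.real B := by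
    simp only [Measure.real, vol_act]
  have h0' : volume.real B ≠ 0 := by
    rw [Measure.real, ENNReal.toReal_ne_zero]
    exact ⟨h0, hfin⟩
  rw [h3, iso_apply γ ((volume.real B)⁻¹ • ∫ x in B, x), map_smul (lin γ), smul_add, smul_smul,
    inv_mul_cancel₀ h0', one_smul]

lemma vol_ne_zero {B : Set (Sp d)} (h : (interior B).Nonempty) : volume B ≠ 0 := by
  intro h0
  have h1 : volume (interior B) = 0 := measure_mono_null interior_subset h0
  exact (isOpen_interior.measure_pos volume h).ne' h1

lemma bary_mem {B : Set (Sp d)} (hB : IsConvexBody B) : bary B ∈ B := by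
  obtain ⟨hc, hconv, hint⟩ := hB
  refine hconv.set_average_mem hc.isClosed (vol_ne_zero hint) hc.measure_lt_top.ne ?_ ?_
  · exact (ae_restrict_iff' hc.measurableSet).mpr (Filter.Eventually.of_forall fun x hx => hx)
  · exact continuous_id.continuousOn.integrableOn_compact hc

lemma act_body (γ : Sp d ≃ᵃⁱ[ℝ] Sp d) {B : Set (Sp d)} (hB : IsConvexBody B) :
    IsConvexBody (act γ B) := by
  refine ⟨act_cpt hB.1 γ, ?_, ?_⟩
  · exact hB.2.1.affine_image (γ.toAffineEquiv : Sp d →ᵃ[ℝ] Sp d)
  · have : interior (act γ B) = γ '' interior B := (γ.toHomeomorph.image_interior B).symm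
    rw [this]
    exact hB.2.2.image _

lemma congruent_iff {K B : Set (Sp d)} : Congruent K B ↔ ∃ γ : Sp d ≃ᵃⁱ[ℝ] Sp d, act γ K = B := by
  constructor
  · rintro ⟨g, hg⟩
    exact ⟨g.toRealAffineIsometryEquiv, by simpa [act] using hg⟩
  · rintro ⟨γ, hγ⟩
    exact ⟨γ.toIsometryEquiv, by simpa [act] using hγ⟩

lemma act_ball (γ : Sp d ≃ᵃⁱ[ℝ] Sp d) (z : Sp d) (r : ℝ) : act γ (ball z r) = ball (γ z) r :=
  γ.toIsometryEquiv.image_ball z r

/-- key separation lemma -/
lemma mem_interior_of_hd {A B : Set (Sp d)} (hA : IsCompact A) (hB : IsConvexBody B) {z : Sp d}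
    {r : ℝ} (hr : 0 < r) (hz : ball z r ⊆ A) (h : hausdorffDist A B < r) : z ∈ interior B := by
  by_contra hzB
  obtain ⟨f, hf⟩ := geometric_hahn_banach_open_point hB.2.1.interior isOpen_interior hzB
  have hBne : B.Nonempty := hB.2.2.mono interior_subset
  have hf' : ∀ b ∈ B, f b ≤ f z := by
    intro b hb
    have h1 : b ∈ closure (interior B) := by
      rw [hB.2.1.closure_interior_eq_closure_of_nonempty_interior hB.2.2]
      exact subset_closure hb
    exact closure_minimal (t := {x | f x ≤ f z}) (fun x hx => (hf x hx).le)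
      (isClosed_le f.continuous continuous_const) h1
  set u : Sp d := (InnerProductSpace.toDual ℝ (Sp d)).symm f with hu
  have hfu : ∀ x, f x = ⟪u, x⟫ := fun x => by
    rw [hu, InnerProductSpace.toDual_symm_apply]
  have hune : u ≠ 0 := by
    intro h0
    obtain ⟨b, hb⟩ := hB.2.2
    have := hf b hb
    rw [hfu, hfu, h0] at this
    simp at this
  have hupos : 0 < ‖u‖ := norm_pos_iff.mpr hune
  set s := (max (hausdorffDist A B) 0 + r) / 2 with hs
  have hmax : max (hausdorffDist A B) 0 < r := max_lt h hr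
  have hs1 : hausdorffDist A B < s := by
    have := le_max_left (hausdorffDist A B) 0
    rw [hs]; linarith
  have hs0 : 0 < s := by
    have := le_max_right (hausdorffDist A B) 0
    rw [hs]; linarith
  have hsr : s < r := by rw [hs]; linarith
  set p := z + (s / ‖u‖) • u with hp
  have hpA : p ∈ A := by
    apply hz
    rw [mem_ball, hp, dist_eq_norm, add_sub_cancel_left, norm_smul,
      Real.norm_of_nonneg (by positivity)]
    field_simp
    exact hsr
  obtain ⟨b, hb, hpb⟩ := exists_dist_lt_of_hausdorffDist_lt hpA hs1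
    (hausdorffEDist_ne_top_of_nonempty_of_bounded ⟨p, hpA⟩ hBne hA.isBounded hB.1.isBounded)
  have h1 := hf' b hb
  rw [hfu, hfu] at h1
  have h2 : ⟪u, p - b⟫ = (⟪u, z⟫ - ⟪u, b⟫) + s * ‖u‖ := by
    rw [hp, inner_sub_right, inner_add_right, inner_smul_right, real_inner_self_eq_norm_sq]
    field_simp
    ring
  have h3 := real_inner_le_norm u (p - b)
  rw [dist_eq_norm] at hpb
  have h4 : ‖u‖ * ‖p - b‖ < ‖u‖ * s := by gcongr
  nlinarith

end Pool.Agent.Lib.MP_ccd76d_co
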