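import Mathlib
import Pool.Agent.Lib.MP_ccd76d_co.Geometry

set_option autoImplicit false

namespace Pool.Agent.Lib.MP_ccd76d_co

open Metric Set MeasureTheory
open scoped RealInnerProductSpace ENNReal

variable {d : ℕ} {K : Set (Sp d)} {C : Set (Set (Sp d))}

lemma body_of_congruent (hK : IsConvexBody K) {B : Set (Sp d)} (h : Congruent K B) :
    IsConvexBody B := by
  obtain ⟨γ, rfl⟩ := congruent_iff.mp h
  exact act_body γ hK

lemma exists_ball (hK : IsConvexBody K) : ∃ (z : Sp d) (r : ℝ), 0 < r ∧ ball z r ⊆ K := by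
  obtain ⟨z, hz⟩ := hK.2.2
  obtain ⟨r, hr, h⟩ := Metric.isOpen_iff.mp isOpen_interior z hz
  exact ⟨z, r, hr, h.trans interior_subset⟩

lemma packing_sep (hK : IsConvexBody K) (hC : IsPackingOf K C) {z : Sp d} {r : ℝ} (hr : 0 < r)
    (hz : ball z r ⊆ K) : ∀ A ∈ C, ∀ B ∈ C, hausdorffDist A B < r → A = B := by
  intro A hA B hB h
  by_contra hne
  have hdis := hC.2 A hA B hB hne
  obtain ⟨γ, hγ⟩ := congruent_iff.mp (hC.1 A hA)
  have hzA : ball (γ z) r ⊆ A := by
    rw [← hγ, ← act_ball]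
    exact image_mono hz
  have h1 : γ z ∈ interior B := mem_interior_of_hd (body_of_congruent hK (hC.1 A hA)).1
    (body_of_congruent hK (hC.1 B hB)) hr hzA h
  have h2 : γ z ∈ interior A := mem_interior.mpr ⟨_, hzA, isOpen_ball, mem_ball_self hr⟩
  exact Set.disjoint_left.mp hdis h2 h1

lemma vol_interior (hK : IsConvexBody K) {B : Set (Sp d)} (h : Congruent K B) :
    volume (interior B) = volume (interior K) := by
  obtain ⟨γ, rfl⟩ := congruent_iff.mp h
  have : interior (act γ K) = act γ (interior K) := (γ.toHomeomorph.image_interior K).symm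
  rw [this, vol_act]

lemma packing_countable (hK : IsConvexBody K) (hC : IsPackingOf K C) : C.Countable := by
  have h : C.PairwiseDisjoint (fun B : Set (Sp d) => interior B) := by
    intro A hA B hB hne
    exact hC.2 A hA B hB hne
  exact h.countable_of_isOpen (fun _ _ => isOpen_interior)
    (fun B hB => (body_of_congruent hK (hC.1 B hB)).2.2)

lemma congruent_dist {δ : ℝ} (hδ : ∀ x ∈ K, ∀ y ∈ K, dist x y ≤ δ) {B : Set (Sp d)}
    (h : Congruent K B) : ∀ x ∈ B, ∀ y ∈ B, dist x y ≤ δ := by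
  obtain ⟨γ, rfl⟩ := congruent_iff.mp h
  rintro _ ⟨x, hx, rfl⟩ _ ⟨y, hy, rfl⟩
  rw [γ.isometry.dist_eq]
  exact hδ x hx y hy

lemma packing_count (hK : IsConvexBody K) (hC : IsPackingOf K C) :
    ∃ c : ℝ, ∀ Λ : ℝ, 1 ≤ Λ → ∀ T : Finset (Set (Sp d)),
      (∀ B ∈ T, B ∈ C ∧ ∃ x ∈ B, ‖x‖ ≤ Λ) → (T.card : ℝ) ≤ c * Λ ^ d := by
  obtain ⟨δ, hδ⟩ := Metric.isBounded_iff.mp hK.1.isBounded
  have hδ' : ∀ x ∈ K, ∀ y ∈ K, dist x y ≤ max δ 0 := fun x hx y hy =>
    (hδ hx hy).trans (le_max_left _ _)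
  set D := max δ 0 with hD
  have hD0 : 0 ≤ D := le_max_right _ _
  set v := (volume (interior K)).toReal with hv
  have hvol_pos : 0 < volume (interior K) := isOpen_interior.measure_pos volume hK.2.2
  have hvol_fin : volume (interior K) ≠ ∞ :=
    ((measure_mono interior_subset).trans_lt hK.1.measure_lt_top).ne
  have hvpos : 0 < v := ENNReal.toReal_pos hvol_pos.ne' hvol_fin
  set V := (volume (ball (0 : Sp d) 1)).toReal with hV
  have hVfin : volume (ball (0 : Sp d) 1) ≠ ∞ := measure_ball_lt_top.ne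
  refine ⟨(1 + D) ^ d * V / v, ?_⟩
  intro Λ hΛ T hT
  have hsub : (⋃ B ∈ T, interior B) ⊆ closedBall (0 : Sp d) (Λ + D) := by
    intro x hx
    simp only [mem_iUnion] at hx
    obtain ⟨B, hB, hxB⟩ := hx
    obtain ⟨hBC, y, hy, hyΛ⟩ := hT B hB
    have h1 := congruent_dist hδ' (hC.1 B hBC) x (interior_subset hxB) y hy
    rw [mem_closedBall, dist_zero_right]
    have h2 : ‖x‖ ≤ ‖y‖ + dist x y := by
      rw [dist_eq_norm]
      have : x = y + (x - y) := by abel
      conv_lhs => rw [this]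
      exact norm_add_le _ _
    linarith
  have hdisj : (T : Set (Set (Sp d))).PairwiseDisjoint (fun B : Set (Sp d) => interior B) := by
    intro A hA B hB hne
    exact hC.2 A (hT A hA).1 B (hT B hB).1 hne
  have h1 : volume (⋃ B ∈ T, interior B) = ∑ B ∈ T, volume (interior B) :=
    measure_biUnion_finset hdisj (fun B _ => isOpen_interior.measurableSet)
  have h2 : ∑ B ∈ T, volume (interior B) = T.card * volume (interior K) := by
    rw [Finset.sum_congr rfl (fun B hB => vol_interior hK (hC.1 B (hT B hB).1))]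
    simp
  have h3 : (T.card : ℝ≥0∞) * volume (interior K) ≤
      ENNReal.ofReal ((Λ + D) ^ d) * volume (ball (0 : Sp d) 1) := by
    rw [← h2, ← h1]
    refine (measure_mono hsub).trans ?_
    rw [Measure.addHaar_closedBall _ _ (by linarith)]
    simp
  have h4 : (T.card : ℝ) * v ≤ (Λ + D) ^ d * V := by
    have h5 := ENNReal.toReal_mono (ENNReal.mul_ne_top ENNReal.ofReal_ne_top hVfin) h3
    rw [ENNReal.toReal_mul, ENNReal.toReal_mul, ENNReal.toReal_ofReal (by positivity)] at h5
    simpa using h5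
  have h6 : (Λ + D) ^ d ≤ (1 + D) ^ d * Λ ^ d := by
    rw [← mul_pow]
    gcongr
    nlinarith
  have hV0 : 0 ≤ V := ENNReal.toReal_nonneg
  have h7 : (T.card : ℝ) * v ≤ ((1 + D) ^ d * V) * Λ ^ d := by
    calc (T.card : ℝ) * v ≤ (Λ + D) ^ d * V := h4
      _ ≤ ((1 + D) ^ d * Λ ^ d) * V := by gcongr
      _ = _ := by ring
  rw [div_mul_eq_mul_div, le_div_iff₀ hvpos]
  exact h7

/-- translation -/
noncomputable def tr (v : Sp d) : Sp d ≃ᵃⁱ[ℝ] Sp d := AffineIsometryEquiv.constVAdd ℝ (Sp d) v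

@[simp] lemma tr_apply (v x : Sp d) : tr v x = v + x := rfl

lemma Congruent.act {B : Set (Sp d)} (h : Congruent K B) (γ : Sp d ≃ᵃⁱ[ℝ] Sp d) :
    Congruent K (act γ B) := by
  obtain ⟨γ', rfl⟩ := congruent_iff.mp h
  rw [congruent_iff]
  exact ⟨γ * γ', act_mul _ _ _⟩

/-- In a solid packing with two different members there is no room for a further body, even if one
member is removed. -/
lemma no_room (hK : IsConvexBody K) (hC : IsPackingOf K C) (hS : IsSolid K C)
    (hd : 1 ≤ d) {B0 B1 : Set (Sp d)} (h0 : B0 ∈ C) (h1 : B1 ∈ C) (hne : B1 ≠ B0)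
    {K' : Set (Sp d)} (hK' : Congruent K K') :
    ∃ B ∈ C, ∃ x ∈ K', ∃ y ∈ B, dist x y < 1 := by
  classical
  by_contra hcon
  push Not at hcon
  -- direction of motion
  obtain ⟨v, hv1, hv⟩ : ∃ v : Sp d, ‖v‖ = 1 ∧ ∀ t : ℝ, 0 ≤ t →
      ‖(bary K' - bary B1) + t • v‖ = ‖bary K' - bary B1‖ + t := by
    by_cases hp : bary K' - bary B1 = 0
    · have : Nontrivial (Sp d) := by
        have : Nonempty (Fin d) := ⟨⟨0, hd⟩⟩
        infer_instance
      obtain ⟨u, hu⟩ := exists_norm_eq (Sp d) zero_le_one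
      refine ⟨u, hu, fun t ht => ?_⟩
      rw [hp, zero_add, norm_zero, zero_add, norm_smul, hu, mul_one, Real.norm_of_nonneg ht]
    · have hpos : 0 < ‖bary K' - bary B1‖ := norm_pos_iff.mpr hp
      set p := bary K' - bary B1 with hpdef
      refine ⟨(1 / ‖p‖) • p, ?_, fun t ht => ?_⟩
      · rw [norm_smul, Real.norm_of_nonneg (by positivity)]; field_simp
      · have e : p + t • ((1 / ‖p‖) • p) = (1 + t / ‖p‖) • p := by
          rw [add_smul, one_smul, smul_smul]; congr 2; ring
        rw [e, norm_smul, Real.norm_of_nonneg (by positivity)]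
        field_simp
  -- the set of distances is countable
  let dst : Set ℝ := (fun p : Set (Sp d) × Set (Sp d) => dist (bary p.1) (bary p.2)) '' (C ×ˢ C)
  have hdst : dst.Countable := ((packing_countable hK hC).prod (packing_countable hK hC)).image _
  have hmem : ∀ t : ℝ, t ∈ Ico (0 : ℝ) 1 → ‖bary K' - bary B1‖ + t ∈ dst := by
    rintro t ⟨ht0, ht1⟩
    set Kt := act (tr (t • v)) K' with hKt
    have hKtC : Congruent K Kt := hK'.act _
    let φ : Set (Sp d) → Set (Sp d) := fun B => if B = B0 then Kt else B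
    have hfar : ∀ B ∈ C, Disjoint (interior Kt) (interior B) := by
      intro B hB
      rw [Set.disjoint_left]
      intro x hx hxB
      obtain ⟨y, hy, hyx⟩ := interior_subset hx
      have h2 := hcon B hB y hy x (interior_subset hxB)
      rw [← hyx, tr_apply, dist_comm, dist_eq_norm, add_sub_cancel_right, norm_smul, hv1, mul_one,
        Real.norm_of_nonneg ht0] at h2
      linarith
    have hrep : IsFiniteReplacement K C φ := by
      refine ⟨?_, ?_, ?_⟩
      · refine (Set.finite_singleton B0).subset ?_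
        rintro B ⟨_, hB⟩
        by_contra hne'
        apply hB
        simp only [φ]
        exact if_neg (fun h => hne' h)
      · intro B hB
        simp only [φ]
        split_ifs
        · exact hKtC
        · exact hC.1 B hB
      · intro A hA B hB hAB
        simp only [φ]
        split_ifs with hA0 hB0 hB0
        · exact absurd (hA0.trans hB0.symm) hAB
        · exact hfar B hB
        · exact (hfar A hA).symm
        · exact hC.2 A hA B hB hAB
    obtain ⟨g, hg⟩ := hS φ hrep
    set γ := g.toRealAffineIsometryEquiv with hγ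
    have hg' : φ '' C = (fun B => act γ B) '' C := by
      rw [hg]; rfl
    have m0 : Kt ∈ φ '' C := ⟨B0, h0, by simp [φ]⟩
    have m1 : B1 ∈ φ '' C := ⟨B1, h1, by simp only [φ]; rw [if_neg hne]⟩
    rw [hg'] at m0 m1
    obtain ⟨A0, hA0, hA0e⟩ := m0
    obtain ⟨A1, hA1, hA1e⟩ := m1
    refine ⟨(A0, A1), ⟨hA0, hA1⟩, ?_⟩
    have hb0 := body_of_congruent hK (hC.1 A0 hA0)
    have hb1 := body_of_congruent hK (hC.1 A1 hA1)
    have e0 : bary Kt = γ (bary A0) := by
      rw [← hA0e]; exact bary_act γ hb0.1 (vol_ne_zero hb0.2.2)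
    have e1 : bary B1 = γ (bary A1) := by
      rw [← hA1e]; exact bary_act γ hb1.1 (vol_ne_zero hb1.2.2)
    have hbK' := body_of_congruent hK hK'
    have e2 : bary Kt = t • v + bary K' := by
      rw [hKt, bary_act _ hbK'.1 (vol_ne_zero hbK'.2.2), tr_apply]
    show dist (bary A0) (bary A1) = _
    rw [← γ.isometry.dist_eq, ← e0, ← e1, e2, ← hv t ht0, dist_eq_norm]
    congr 1; abel
  have hcount : (Ico (0 : ℝ) 1).Countable := by
    have hinj : Function.Injective (fun t : ℝ => ‖bary K' - bary B1‖ + t) :=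
      add_right_injective _
    exact (hdst.preimage hinj).mono hmem
  rw [Cardinal.Real.Ico_countable_iff] at hcount
  linarith

lemma packing_dense (hK : IsConvexBody K) (hC : IsPackingOf K C) (hS : IsSolid K C)
    (hd : 1 ≤ d) (hnt : C.Nontrivial) :
    ∃ R : ℝ, 0 < R ∧ ∀ y : Sp d, ∃ B ∈ C, B ⊆ closedBall y R := by
  obtain ⟨B0, h0, B1, h1, hne⟩ := hnt
  obtain ⟨δ, hδ⟩ := Metric.isBounded_iff.mp hK.1.isBounded
  have hδ' : ∀ x ∈ K, ∀ y ∈ K, dist x y ≤ max δ 0 := fun x hx y hy =>
    (hδ hx hy).trans (le_max_left _ _)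
  set D := max δ 0 with hD
  have hD0 : 0 ≤ D := le_max_right _ _
  refine ⟨2 * D + 1, by linarith, fun y => ?_⟩
  obtain ⟨k0, hk0⟩ := hK.2.2.mono interior_subset
  have hself : Congruent K K := ⟨IsometryEquiv.refl _, Set.image_id K⟩
  obtain ⟨B, hB, x, hx, w, hw, hxw⟩ := no_room hK hC hS hd h0 h1 hne.symm
    (hself.act (tr (y - k0)))
  refine ⟨B, hB, fun u hu => ?_⟩
  rw [mem_closedBall]
  obtain ⟨k, hk, hkx⟩ := hx
  have e1 : dist x y ≤ D := by
    rw [← hkx, tr_apply, dist_eq_norm]
    have : y - k0 + k - y = k - k0 := by abel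
    rw [this, ← dist_eq_norm]
    exact hδ' k hk k0 hk0
  have e2 := congruent_dist hδ' (hC.1 B hB) u hu w hw
  have e3 := dist_triangle u w y
  have e4 := dist_triangle w x y
  rw [dist_comm w x] at e4
  linarith

/-- the facts about solid packings with at least two members used in the group-theoretic part -/
theorem exists_good (hK : IsConvexBody K) (hC : IsPackingOf K C) (hS : IsSolid K C)
    (hd : 1 ≤ d) (hnt : C.Nontrivial) : Nonempty (Good C) := by
  obtain ⟨z, r, hr, hz⟩ := exists_ball hK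
  obtain ⟨c, hc⟩ := packing_count hK hC
  obtain ⟨R, hR, hRd⟩ := packing_dense hK hC hS hd hnt
  exact ⟨{
    c0 := r
    c0_pos := hr
    sep := packing_sep hK hC hr hz
    cpt := fun B hB => (body_of_congruent hK (hC.1 B hB)).1
    ne := fun B hB => (body_of_congruent hK (hC.1 B hB)).2.2.mono interior_subset
    fixpt := fun B hB κ hκ => by
      have hb := body_of_congruent hK (hC.1 B hB)
      refine ⟨bary B, bary_mem hb, ?_⟩
      have := bary_act κ hb.1 (vol_ne_zero hb.2.2)
      rw [hκ] at this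
      exact this.symm
    R := R
    R_pos := hR
    dense := hRd
    cst := c
    dm := d
    count := hc }⟩

lemma finite_bound {F : Set (Set (Sp d))} (hF : F.Finite) (hb : ∀ X ∈ F, Bornology.IsBounded X) :
    ∃ M : ℝ, ∀ X ∈ F, ∀ x ∈ X, ‖x‖ ≤ M := by
  have : Bornology.IsBounded (⋃ X ∈ F, X) := (Bornology.isBounded_biUnion hF).mpr hb
  obtain ⟨M, hM⟩ := this.exists_norm_le
  exact ⟨M, fun X hX x hx => hM x (mem_biUnion hX hx)⟩

/-- A packing that is solid but not uniformly finitely stable yields nontrivial almost-symmetries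
with arbitrarily small displacement. -/
theorem exists_W (hK : IsConvexBody K) (hC : IsPackingOf K C) (hS : IsSolid K C)
    (D : Good C) (hU : ¬ IsUniformlyFinitelyStable K C) (ε : ℝ) (hε : 0 < ε) :
    ∃ γ : Sp d ≃ᵃⁱ[ℝ] Sp d, W C γ ε := by
  unfold IsUniformlyFinitelyStable at hU
  push Not at hU
  have hc0 := D.c0_pos
  obtain ⟨φ, hφ, hφd, B0, hB0, hB0n⟩ := hU (min ε D.c0) (by positivity)
  obtain ⟨g, hg⟩ := hS φ hφ
  set γ := g.toRealAffineIsometryEquiv with hγ
  have hg' : φ '' C = (fun B => act γ B) '' C := by rw [hg]; rfl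
  refine ⟨γ, ?_, ?_, ?_, ?_⟩
  · -- almost symmetry
    set mv := {B | B ∈ C ∧ φ B ≠ B} with hmv
    have hmvfin : mv.Finite := hφ.1
    have hex : (mv ∪ (fun B => act γ⁻¹ (φ B)) '' mv).Finite := hmvfin.union (hmvfin.image _)
    obtain ⟨M, hM⟩ := finite_bound hex (by
      rintro X (hX | ⟨B, hB, rfl⟩)
      · exact (D.cpt X hX.1).isBounded
      · exact (act_cpt (body_of_congruent hK (hφ.2.1 B hB.1)).1 γ⁻¹).isBounded)
    refine ⟨max ‖γ 0‖ (M + 1), le_max_left _ _, ?_, ?_⟩
    · intro B hB hfar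
      by_contra hnot
      have h1 : act γ B ∈ φ '' C := by rw [hg']; exact ⟨B, hB, rfl⟩
      obtain ⟨B1, hB1, hB1e⟩ := h1
      have h2 : φ B1 ≠ B1 := by
        intro h
        apply hnot
        rw [← hB1e, h]; exact hB1
      have h3 : B ∈ mv ∪ (fun B => act γ⁻¹ (φ B)) '' mv := by
        right
        exact ⟨B1, ⟨hB1, h2⟩, by simp only; rw [hB1e, act_inv_act]⟩
      obtain ⟨x, hx⟩ := D.ne B hB
      have h4 := hM B h3 x hx
      have h5 := hfar x hx
      have h6 := le_max_right ‖γ 0‖ (M + 1)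
      linarith
    · intro B hB hfar
      by_contra hnot
      have h2 : φ B ≠ B := by
        intro h
        apply hnot
        have h1 : B ∈ φ '' C := ⟨B, hB, h⟩
        rw [hg'] at h1
        obtain ⟨B1, hB1, hB1e⟩ := h1
        rw [← hB1e]
        simp only [act_inv_act]
        exact hB1
      have h3 : B ∈ mv ∪ (fun B => act γ⁻¹ (φ B)) '' mv := Or.inl ⟨hB, h2⟩
      obtain ⟨x, hx⟩ := D.ne B hB
      have h4 := hM B h3 x hx
      have h5 := hfar x hx
      have h6 := le_max_right ‖γ 0‖ (M + 1)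
      linarith
  · intro B hB
    have h1 : act γ B ∈ φ '' C := by rw [hg']; exact ⟨B, hB, rfl⟩
    obtain ⟨B1, hB1, hB1e⟩ := h1
    refine ⟨B1, hB1, ?_⟩
    rw [← hB1e, hausdorffDist_comm]
    exact (hφd B1 hB1).trans_le (min_le_left _ _)
  · intro B hB
    have h1 : φ B ∈ (fun B => act γ B) '' C := by rw [← hg']; exact ⟨B, hB, rfl⟩
    obtain ⟨B1, hB1, hB1e⟩ := h1
    refine ⟨B1, hB1, ?_⟩
    have h2 := hd_act γ (act γ⁻¹ B) B1
    rw [act_act_inv] at h2
    rw [← h2]
    simp only at hB1e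
    rw [hB1e]
    exact (hφd B hB).trans_le (min_le_left _ _)
  · refine ⟨B0, hB0, fun hmem => ?_⟩
    have h1 : B0 ∈ φ '' C := by
      rw [hg']; exact ⟨_, hmem, act_act_inv γ B0⟩
    obtain ⟨B2, hB2, hB2e⟩ := h1
    have h2 := hφd B2 hB2
    rw [hB2e] at h2
    have h3 := D.sep B2 hB2 B0 hB0 (h2.trans_le (min_le_right _ _))
    rw [h3] at hB2e
    exact hB0n hB2e

theorem stable_of_solid (hK : IsConvexBody K) (hC : IsPackingOf K C) (hS : IsSolid K C)
    (hd : 1 ≤ d) (hnt : C.Nontrivial) : IsUniformlyFinitelyStable K C := by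
  by_contra hU
  obtain ⟨D⟩ := exists_good hK hC hS hd hnt
  have : Nontrivial (Sp d) := by
    have : Nonempty (Fin d) := ⟨⟨0, hd⟩⟩
    infer_instance
  exact no_W D (fun ε hε => exists_W hK hC hS D hU ε hε)

/-- the family consisting of a single body is never uniformly finitely stable -/
theorem not_stable_single (hK : IsConvexBody K) (hd : 1 ≤ d) {B : Set (Sp d)}
    (hB : Congruent K B) : ¬ IsUniformlyFinitelyStable K {B} := by
  rintro ⟨ε, hε, h⟩
  have : Nontrivial (Sp d) := by
    have : Nonempty (Fin d) := ⟨⟨0, hd⟩⟩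
    infer_instance
  obtain ⟨u, hu⟩ := exists_norm_eq (Sp d) (show (0 : ℝ) ≤ ε / 2 by positivity)
  have hb := body_of_congruent hK hB
  have h1 := h (fun _ => act (tr u) B) ⟨(Set.finite_singleton B).subset (fun X hX => hX.1),
    fun X _ => hB.act _, fun A hA X hX hne => absurd (hA.trans hX.symm) hne⟩ (by
      rintro X rfl
      rw [hausdorffDist_comm]
      refine lt_of_le_of_lt (hd_le (r := ε / 2) (by positivity) ?_) (by linarith)
      intro x _
      rw [tr_apply, add_sub_cancel_right, hu]) B rfl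
  have h2 := bary_act (tr u) hb.1 (vol_ne_zero hb.2.2)
  rw [h1, tr_apply] at h2
  have h3 : u = 0 := by
    have := congrArg (fun x => x - bary B) h2
    simpa using this.symm
  rw [h3, norm_zero] at hu
  linarith

end Pool.Agent.Lib.MP_ccd76d_co
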